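import Pool.Agent.MP_187b32_an.Solver.Main
import Pool.Agent.MP_187b32_an.Spec.Bg
import Pool.Agent.MP_187b32_an.Herm.Macro

/-!
The kinetic and the hydrodynamic solver in the form of the specification.
-/

set_option autoImplicit false

open Finset Pool.Agent.Boltz

noncomputable section

namespace Pool.Agent.MP_187b32_an.Solver

/-- The transport operator built from a rule `T` for the terms. -/
def trOp {F : ℝ → Fld} (hF : FldC F)
    (T : Cf → List (Fin 3) → Fin 3 ⊕ Fin 3 → ℝ → XS →ₗ[ℝ] XS) : ℝ → XS →ₗ[ℝ] XS :=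
  ∑ i, (T ⟨_, hF.u i, fun s => ((hF.reg s).u i).2⟩ [] (Sum.inl i) +
      T ⟨_, hF.c, fun s => (hF.reg s).c.2⟩ [i] (Sum.inl i)) +
    -(∑ j, T ⟨_, hF.b0 j, fun s => ((hF.reg s).b0 j).2⟩ [] (Sum.inr j) +
      ∑ i, ∑ j, T ⟨_, hF.b1 i j, fun s => ((hF.reg s).b1 i j).2⟩ [i] (Sum.inr j) +
      ∑ i, ∑ j, T ⟨_, hF.b2 i, fun s => ((hF.reg s).b2 i).2⟩ [i, j] (Sum.inr j))

lemma adm_trOp {P0 P1 : (SV →L[ℝ] SV) → Prop} {d : SV → ℝ} (hd : ∀ f, 0 ≤ d f) {F : ℝ → Fld}
    (hF : FldC F) {T : Cf → List (Fin 3) → Fin 3 ⊕ Fin 3 → ℝ → XS →ₗ[ℝ] XS}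
    (hT : ∀ c α z, α.length ≤ 2 → Adm P0 P1 d (T c α z)) : Adm P0 P1 d (trOp hF T) :=
  (Adm.sum hd _ fun _ => (hT _ _ _ (by simp)).add (hT _ _ _ (by simp))).add
    (((Adm.sum hd _ fun _ => hT _ _ _ (by simp)).add
      (Adm.sum hd _ fun _ => Adm.sum hd _ fun _ => hT _ _ _ (by simp))).add
      (Adm.sum hd _ fun _ => Adm.sum hd _ fun _ => hT _ _ _ (by simp))).neg

lemma trOp_apply {F : ℝ → Fld} (hF : FldC F)
    {T : Cf → List (Fin 3) → Fin 3 ⊕ Fin 3 → ℝ → XS →ₗ[ℝ] XS} (R : SV →L[ℝ] SV) {s : ℝ}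
    {G H : XS} {x : E3}
    (hT : ∀ c α z, (T c α z s G).1 x = c.c s x • R (mulW α (Zl z H.1 x))) :
    (trOp hF T s G).1 x = R ((F s).tr H.1 x) := by
  simp only [trOp, Pi.add_apply, Pi.neg_apply, Finset.sum_apply, LinearMap.add_apply,
    LinearMap.neg_apply, LinearMap.sum_apply, Submodule.coe_add, Submodule.coe_neg,
    Submodule.coe_sum, hT, Fld.tr, Fld.vel, map_add, map_neg, map_sum, map_smul, mulW_cons,
    mulW_nil, Zl]

/-- Functionals represented by a smooth family. -/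
def Rep (l : ℝ → XS → ℝ) : Prop := ∃ ψ : Vf, ∀ s G, l s G = bX.B (ψ.at s) G

lemma Rep.sum {ι : Type*} (S : Finset ι) {l : ι → ℝ → XS → ℝ} (h : ∀ i, Rep (l i)) :
    Rep fun s G => ∑ i ∈ S, l i s G := by
  choose ψ hψ using h
  refine ⟨⟨fun s x => ∑ i ∈ S, (ψ i).f s x, SmC.sum S fun i _ => (ψ i).sm,
    fun s => Per.sum S fun i _ => (ψ i).per s⟩, fun s G => ?_⟩
  simp only [hψ]
  rw [← LinearMap.sum_apply, ← map_sum]
  congr 2
  exact Subtype.ext (funext fun x => by simp [Vf.at])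

lemma Rep.DW (u : List (Fin 3)) {l : ℝ → XS → ℝ} (h : Rep l) : Rep fun s G => l s (DW u G) := by
  induction u with
  | nil => exact h
  | cons i u ih =>
    obtain ⟨ψ, hψ⟩ := ih
    refine ⟨ψ.Zs (Sum.inl i), fun s G => ?_⟩
    rw [Vf.Zs_at, bX.symm, ← adjX, bX.symm]
    exact hψ s (opD i G)

lemma rep_En (n : ℕ) (θ C0 : ℝ) (w σ : Cf) (φ : Vf) :
    Rep fun s G => C0 * En n θ (w.c s) (σ.c s) (φ.f s) G.1 := by
  have hσ : ∀ j : ℕ, SmC fun s x => σ.c s x ^ j := by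
    intro j
    induction j with
    | zero => simpa using SmC.const (1 : ℝ)
    | succ j ih => simpa only [pow_succ] using ih.mul σ.sm
  let ψ : ℕ → ℕ → List (Fin 3) → Vf := fun j m u =>
    ⟨fun s x => (C0 * θ ^ (j + m) * (w.c s x * σ.c s x ^ (2 * j))) • RR m (dXw u (φ.f s) x),
      ((SmC.const _).mul (w.sm.mul (hσ _))).smul ((φ.sm.dXw u).clm _),
      fun s i x => by simp only [w.per s i x, σ.per s i x, (φ.per s).dXw u i x]⟩
  obtain ⟨χ, hχ⟩ := Rep.sum (range (n + 1)) fun j => Rep.sum (range (n + 1 - j)) fun m =>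
    Rep.sum (words j) fun u => Rep.DW u (l := fun s G => bX.B ((ψ j m u).at s) G)
      ⟨ψ j m u, fun _ _ => rfl⟩
  refine ⟨χ, fun s G => ?_⟩
  rw [← hχ]
  have hc : ∀ j m u, Continuous fun x => ip (((ψ j m u).at s).1 x) ((DW u G).1 x) :=
    fun j m u => XS.cont_ip _ _
  simp only [bX_B]
  simp only [← tint_sum _ fun u _ => hc _ _ u]
  simp only [← tint_sum _ fun m _ => continuous_finsetSum _ fun u _ => hc _ m u]
  rw [← tint_sum _ fun j _ => continuous_finsetSum _ fun m _ =>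
    continuous_finsetSum _ fun u _ => hc j m u, En, ← tint_const_mul]
  refine tint_congr fun x => ?_
  simp only [bb, MP_187b32_an.lev, mul_sum, Vf.at, ψ, DW_val, map_smul, LinearMap.smul_apply,
    smul_eq_mul, ip_RR_symm]
  refine sum_congr rfl fun j _ => sum_congr rfl fun m _ => sum_congr rfl fun u _ => ?_
  ring

/-- The collision operator with a fixed first argument. -/
def gam (Q : CollOp) (φ : SV) : SV →L[ℝ] SV :=
  ⟨Q.G φ, Q.cont.comp (continuous_const.prodMk continuous_id)⟩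

lemma neg_gam (Q : CollOp) (f : SV) : -gam Q sqMS f = Q.L f := (Q.L_eq f).symm

lemma neg_ip_gam (Q : CollOp) (f : SV) : -ip (gam Q sqMS f) f = ip (Q.L f) f := by
  rw [← neg_gam, map_neg, LinearMap.neg_apply]

lemma collData_gam (Q : CollOp) : CollData (gam Q) where
  leib := Q.leib
  dis_nonneg f := by
    obtain ⟨lam, h1, h2⟩ := Q.gap
    rw [neg_ip_gam]
    exact (mul_nonneg h1.le (ip_self_nonneg _)).trans (h2 f)
  tri φ := by
    obtain ⟨C, hC, h⟩ := Q.tri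
    refine ⟨C * √(nA Q.p φ), fun f g => ?_⟩
    rw [neg_ip_gam, neg_ip_gam]
    change |ip (Q.G φ f) g| ≤ _
    rw [Q.symm]
    refine (h f φ g).trans ?_
    gcongr
    linarith [ip_self_nonneg g]
  wgt := by
    obtain ⟨C, -, h⟩ := Q.wgt
    exact ⟨C, fun f => by rw [neg_ip_gam]; exact h f⟩

theorem m3k : M3kStmt := by
  intro Q F k wt σ n m θ C0 s0 φ S g0 hF hk hkp hk0 hw hwp hσ hσp hφ hφp hS hSp hg hgp
  have hΓ := collData_gam Q
  have hd := fun f => add_nonneg (hΓ.dis_nonneg f) (ip_self_nonneg f)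
  choose ψ hψ using fun i => rep_En n θ C0 ⟨wt, hw, hwp⟩ ⟨σ, hσ, hσp⟩ ⟨φ i, hφ i, hφp i⟩
  obtain ⟨g, g', h1, h2, h3⟩ := solver_coll hΓ
    ((adm_trOp hd hF (T := fun c α z => tm c (mulW α) (some z))
      fun c α z hα => adm_mulW hΓ c α hα (some z)).add
      (Adm.sum hd univ fun i => Adm.rk hd ⟨φ i, hφ i, hφp i⟩ (ψ i)))
    ⟨k, hk, hkp⟩ s0 (fun s _ => hk0 s) ⟨S, hS, hSp⟩ ⟨g0, hg, hgp⟩
  refine ⟨_, _, h1, fun s => XS.per _, fun s => XS.per _, by simp only [h2], fun s hs x => ?_⟩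
  have h4 := h3 s hs x
  simp only [Pi.add_apply, LinearMap.add_apply, Submodule.coe_add] at h4
  rw [trOp_apply hF (ContinuousLinearMap.id ℝ SV) (H := g s)
    fun c α z => by rw [tm_apply, ZoX_val]; rfl] at h4
  simp only [Finset.sum_apply, LinearMap.sum_apply, Submodule.coe_sum, rk_apply,
    Submodule.coe_smul, Pi.smul_apply, ← hψ, neg_gam, ContinuousLinearMap.id_apply] at h4
  rw [← h4]
  simp only [Vf.at]
  abel

/-- The terms of the hydrodynamic operator. -/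
def tmH (c : Cf) (α : List (Fin 3)) : Fin 3 ⊕ Fin 3 → ℝ → XS →ₗ[ℝ] XS
  | Sum.inl i => tm c ((PP.comp (mulW α)).comp PP) (some (Sum.inl i))
  | Sum.inr j => tm c ((PP.comp ((mulW α).comp (ap j))).comp PP) none

theorem m3h : M3hStmt := by
  intro F s0 S W0 hF hS hSp hSP hW hWp hWP
  have hd : ∀ f : SV, 0 ≤ ip f f := ip_self_nonneg
  have hdc : Continuous fun f : SV => ip f f :=
    continuous_ip.comp (continuous_id.prodMk continuous_id)
  have hA : Adm FR (fun B => B = 0) (fun f => ip f f) (trOp hF tmH) := by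
    refine adm_trOp hd hF fun c α z _ => ?_
    rcases z with i | j
    · refine .tm_inl hdc c (fr_comp_PP _) i ((fr_comp_PP _).v0 hd).vd fun f h => ?_
      simp only [ContinuousLinearMap.comp_apply, ip_PP, ip_mulW]
    · exact .tm_none hdc c (fr_comp_PP _) ((fr_comp_PP _).v0 hd).vd
  obtain ⟨g, g', h1, h2, h3⟩ := solver_gen (P0 := FR) (P1 := fun B => B = 0) hdc hd
    (fun _ hB => ⟨hB.v0 hd, hB.adV⟩)
    (by
      rintro B rfl
      refine ⟨fun ε hε => ⟨0, le_rfl, fun f h => ?_⟩, fun j => ?_⟩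
      · simpa using mul_nonneg hε.le (hd h)
      · ext1 f; simp [adV_apply])
    (L := 0) rfl (fun h => by simp) hA ⟨fun _ _ => 1, SmC.const _, fun _ => Per.const _⟩ s0
    (fun _ _ _ => one_pos) ⟨S, hS, hSp⟩ ⟨W0, hW, hWp⟩
  refine ⟨_, _, h1.clm PP, fun s => (XS.per _).map _, fun s => (XS.per _).map _,
    fun s x => PP_PP _, funext fun x => by simp only [h2, hWP], fun s hs x => ?_⟩
  have h4 := h3 s hs x
  rw [trOp_apply hF PP (H := opV PP (g s)) fun c α z => by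
    rcases z with i | j
    · rw [tmH, tm_apply]
      exact congrArg (fun f => c.c s x • PP (mulW α f))
        (congrFun (congrArg Subtype.val (opD_opV i PP (g s))) x).symm
    · rfl] at h4
  have h5 := congrArg PP h4
  simp only [zero_apply, smul_zero, add_zero, map_add, PP_PP, hSP] at h5
  exact h5

end Pool.Agent.MP_187b32_an.Solver
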