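import Pool.Agent.MP_187b32_an.Solver.Gal
import Pool.Agent.MP_187b32_an.Solver.Stmt
import Pool.Agent.MP_187b32_an.Calc.XSob
import Pool.Agent.MP_187b32_an.Calc.Complete

/-!
The space of smooth periodic Schwartz valued functions, its letters and norms; Sobolev bound,
completeness, and the passage from curves in the scale to smooth families.
-/

set_option autoImplicit false

open Set Filter Topology Finset Pool.Agent.Boltz

noncomputable section

namespace Pool.Agent.MP_187b32_an.Solver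

/-- Smooth periodic functions with values in Schwartz space. -/
def XS : Submodule ℝ (E3 → SV) where
  carrier := {G | Sm G ∧ Per G}
  add_mem' hG hH := ⟨hG.1.add hH.1, hG.2.map₂ hH.2 (· + ·)⟩
  zero_mem' := ⟨Sm.const 0, Per.const 0⟩
  smul_mem' c _ hG := ⟨hG.1.const_smul c, hG.2.map (c • ·)⟩

lemma XS.sm (G : XS) : Sm G.1 := G.2.1

lemma XS.per (G : XS) : Per G.1 := G.2.2

lemma XS.cont_ip (G H : XS) : Continuous fun x => ip (G.1 x) (H.1 x) :=
  ((XS.sm G).ip (XS.sm H)).cont

/-- The `L²` form. -/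
def bX : PD XS where
  B := LinearMap.mk₂ ℝ (fun G H => tint fun x => ip (G.1 x) (H.1 x))
    (fun G₁ G₂ H => by
      rw [← tint_add (XS.cont_ip G₁ H) (XS.cont_ip G₂ H)]; exact tint_congr fun x => by simp)
    (fun c G H => by
      rw [smul_eq_mul, ← tint_const_mul]; exact tint_congr fun x => by simp)
    (fun G H₁ H₂ => by
      rw [← tint_add (XS.cont_ip G H₁) (XS.cont_ip G H₂)]; exact tint_congr fun x => by simp)
    (fun c G H => by
      rw [smul_eq_mul, ← tint_const_mul]; exact tint_congr fun x => by simp)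
  symm G H := tint_congr fun x => ip_comm _ _
  nonneg G := tint_nonneg fun x => ip_self_nonneg _
  defin G h := Subtype.ext (funext fun x => ip_self_eq_zero
    (eq_zero_of_tint_eq_zero ((XS.per G).map fun f => ip f f) (XS.cont_ip G G)
      (fun _ => ip_self_nonneg _) h x))

lemma bX_B (G H : XS) : bX.B G H = tint fun x => ip (G.1 x) (H.1 x) := rfl

/-- An operator in the velocity variable acting on functions. -/
def opV (B : SV →L[ℝ] SV) : XS →ₗ[ℝ] XS where
  toFun G := ⟨fun x => B (G.1 x), (XS.sm G).clm B, (XS.per G).map B⟩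
  map_add' G H := Subtype.ext (funext fun x => by simp)
  map_smul' c G := Subtype.ext (funext fun x => by simp)

@[simp] lemma opV_apply (B : SV →L[ℝ] SV) (G : XS) (x : E3) : (opV B G).1 x = B (G.1 x) := rfl

/-- Derivative in `x`. -/
def opD (i : Fin 3) : XS →ₗ[ℝ] XS where
  toFun G := ⟨dX i G.1, (XS.sm G).dX i, (XS.per G).dX i⟩
  map_add' G H := Subtype.ext (dX_add (XS.sm G).dif (XS.sm H).dif i)
  map_smul' c G := Subtype.ext (dX_const_smul (XS.sm G).dif c i)

@[simp] lemma opD_apply (i : Fin 3) (G : XS) : (opD i G).1 = dX i G.1 := rfl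

/-- The letters. -/
def ZX : Fin 3 ⊕ Fin 3 → XS →ₗ[ℝ] XS
  | Sum.inl i => opD i
  | Sum.inr j => opV (ap j)

/-- Their adjoints. -/
def ZsX : Fin 3 ⊕ Fin 3 → XS →ₗ[ℝ] XS
  | Sum.inl i => -opD i
  | Sum.inr j => opV (am j)

/-- A letter or nothing. -/
def ZoX : Option (Fin 3 ⊕ Fin 3) → XS →ₗ[ℝ] XS
  | none => LinearMap.id
  | some z => ZX z

lemma ZoX_val (z : Option (Fin 3 ⊕ Fin 3)) (G : XS) : (ZoX z G).1 = Zo z G.1 := by
  rcases z with _ | i | j <;> rfl

lemma adjX (z : Fin 3 ⊕ Fin 3) (G H : XS) : bX.B (ZX z G) H = bX.B G (ZsX z H) := by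
  rcases z with i | j
  · simp only [ZX, ZsX, LinearMap.neg_apply, map_neg, bX_B]
    exact tint_bilin_dX ip continuous_ip (XS.sm G) (XS.sm H) (XS.per G) (XS.per H) i
  · exact tint_congr fun x => ip_ap j _ _

lemma opD_opV (i : Fin 3) (B : SV →L[ℝ] SV) (G : XS) : opD i (opV B G) = opV B (opD i G) :=
  Subtype.ext (dX_clm (XS.sm G).dif B i)

lemma ZX_comm (z z' : Fin 3 ⊕ Fin 3) (G : XS) : ZX z (ZX z' G) = ZX z' (ZX z G) := by
  rcases z with i | j <;> rcases z' with i' | j'
  · exact Subtype.ext (dX_comm (XS.sm G) i i')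
  · exact opD_opV _ _ _
  · exact (opD_opV _ _ _).symm
  · exact Subtype.ext (funext fun x => ap_comm _ _ _)

lemma ZoX_comm (z : Option (Fin 3 ⊕ Fin 3)) (z' : Fin 3 ⊕ Fin 3) (G : XS) :
    ZoX z (ZX z' G) = ZX z' (ZoX z G) := by
  rcases z with _ | z
  · rfl
  · exact ZX_comm _ _ _

/-- The squared `L²` norm. -/
abbrev nX : XS → ℝ := fun G => bX.B G G

lemma tint_nA_le (m : ℕ) (G : XS) : tint (fun x => nA m (G.1 x)) ≤ lq ZX nX m G := by
  induction m generalizing G with
  | zero => exact le_of_eq (tint_congr fun x => nA_zero _)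
  | succ m ih =>
    rw [lq_succ, Fintype.sum_sum_type]
    have h1 : tint (fun x => nA (m + 1) (G.1 x)) =
        ∑ j, tint fun x => nA m ((ZX (Sum.inr j) G).1 x) := by
      rw [← tint_sum _ fun j _ => ((XS.sm (ZX (Sum.inr j) G)).nA m).cont]
      exact tint_congr fun x => nA_succ m _
    have h2 : 0 ≤ ∑ i, lq ZX nX m (ZX (Sum.inl i) G) :=
      sum_nonneg fun _ _ => lq_nonneg bX.nonneg _ _
    rw [h1]
    linarith [sum_le_sum fun j (_ : j ∈ Finset.univ) => ih (ZX (Sum.inr j) G)]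

/-- Derivative along a word. -/
def DW : List (Fin 3) → XS →ₗ[ℝ] XS
  | [] => LinearMap.id
  | i :: u => (DW u).comp (opD i)

@[simp] lemma DW_val (u : List (Fin 3)) (G : XS) : (DW u G).1 = dXw u G.1 := by
  induction u generalizing G with
  | nil => rfl
  | cons i u ih => exact ih (opD i G)

lemma sq_DW_le (u : List (Fin 3)) (n : ℕ) (G : XS) :
    sq ZX nX n (DW u G) ≤ sq ZX nX (n + u.length) G := by
  induction u generalizing G with
  | nil => exact le_rfl
  | cons i u ih => exact (ih (opD i G)).trans (sq_Z_le bX.nonneg _ (Sum.inl i) G)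

/-- The Sobolev constant. -/
def KS : ℝ := 8 * ∑ j ∈ range 4, ((words j).card : ℝ)

lemma KS_nonneg : 0 ≤ KS := by unfold KS; positivity

lemma nA_le_sq (m : ℕ) (G : XS) (x : E3) : nA m (G.1 x) ≤ KS * sq ZX nX (m + 3 + 1) G := by
  refine (nA_le_torus m (XS.sm G) (XS.per G) x).trans ?_
  rw [KS, mul_assoc, sum_mul]
  refine mul_le_mul_of_nonneg_left (sum_le_sum fun j hj => ?_) (by norm_num)
  rw [← nsmul_eq_mul]
  refine sum_le_card_nsmul _ _ _ fun u hu => ?_
  have h1 := tint_nA_le m (DW u G)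
  rw [DW_val] at h1
  refine h1.trans ((lq_le_sq bX.nonneg _ _).trans ((sq_DW_le u _ G).trans
    (sq_mono bX.nonneg ?_ G)))
  have := mem_words.1 hu
  have := Finset.mem_range.1 hj
  omega

/-- The forms on Schwartz space. -/
def qA (m : ℕ) : PD SV where
  B := nB m
  symm := nB_comm m
  nonneg f := by rw [nB_self]; exact nA_nonneg m f
  defin f h := by
    rw [nB_self] at h
    have := nA_mono (Nat.zero_le m) f
    rw [h, nA_zero] at this
    exact ip_self_eq_zero (le_antisymm this (ip_self_nonneg f))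

lemma qA_nr (m : ℕ) (f : SV) : (qA m).nr f = √(nA m f) := by
  rw [PD.nr_eq_sqrt]; exact congrArg _ (nB_self m f)

lemma tendsto_iff_qA {α : Type*} {l : Filter α} {f : α → SV} {g : SV} :
    Tendsto f l (𝓝 g) ↔ ∀ m, Tendsto (fun i => toL (qA m) (f i)) l (𝓝 (toL (qA m) g)) := by
  rw [tendsto_SV_iff]
  refine forall_congr' fun m => ?_
  rw [tendsto_iff_norm_sub_tendsto_zero (E := Lvl (qA m))]
  have e : ∀ i, ‖toL (qA m) (f i) - toL (qA m) g‖ = √(nA m (f i - g)) := fun i => by
    rw [← map_sub, ← qA_nr]; rfl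
  simp only [e]
  constructor
  · intro h; simpa using h.sqrt
  · intro h
    simpa [Real.sq_sqrt (nA_nonneg _ _)] using h.pow 2

lemma continuous_iff_qA {T : Type*} [TopologicalSpace T] {f : T → SV} :
    Continuous f ↔ ∀ m, Continuous fun t => toL (qA m) (f t) := by
  simp only [continuous_iff_continuousAt, ContinuousAt]
  exact ⟨fun h m t => tendsto_iff_qA.1 (h t) m, fun h t => tendsto_iff_qA.2 fun m => h m t⟩

lemma hd_iff_qA {γ : ℝ → SV} {a : SV} {t : ℝ} :
    HD γ a t ↔ ∀ m, HasDerivAt (fun s => toL (qA m) (γ s)) (toL (qA m) a) t := by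
  simp only [← hd_iff_hasDerivAt, HD, ← map_sub, ← map_smul]
  exact tendsto_iff_qA

lemma qA_nr_le (m : ℕ) (u : List (Fin 3)) (G : XS) (x : E3) :
    (qA m).nr (dXw u G.1 x) ≤ √KS * (lev ZX bX (m + 3 + u.length)).nr G := by
  rw [qA_nr]
  refine Real.sqrt_le_iff.2 ⟨mul_nonneg (Real.sqrt_nonneg _) (PD.nr_nonneg _ _), ?_⟩
  rw [mul_pow, Real.sq_sqrt KS_nonneg, lev_nr_sq, ← DW_val]
  refine (nA_le_sq m _ x).trans (mul_le_mul_of_nonneg_left ((sq_DW_le u _ G).trans
    (le_of_eq ?_)) KS_nonneg)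
  congr 1; omega

/-- Evaluation of a derivative at a point, as a linear map. -/
def evX (u : List (Fin 3)) (x : E3) : XS →ₗ[ℝ] SV :=
  (LinearMap.proj x).comp (XS.subtype.comp (DW u))

lemma evX_apply (u : List (Fin 3)) (x : E3) (G : XS) : evX u x G = dXw u G.1 x := by
  rw [← DW_val]; rfl

/-- Evaluation as a continuous map between levels. -/
def evL (m : ℕ) (u : List (Fin 3)) (x : E3) :
    Lvl (lev ZX bX (m + 3 + u.length)) →L[ℝ] Lvl (qA m) :=
  ((toL (qA m)).comp ((evX u x).comp (ofL _))).mkContinuous √KS fun G => by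
    have := qA_nr_le m u (ofL _ G) x
    rw [← evX_apply] at this
    exact this

lemma evL_apply (m : ℕ) (u : List (Fin 3)) (x : E3) (G : XS) :
    evL m u x (toL _ G) = toL (qA m) (dXw u G.1 x) := by
  rw [← evX_apply]; rfl

theorem smC_of_lev {T : Type*} [TopologicalSpace T] {g : T → XS}
    (hg : ∀ n, Continuous fun t => toL (lev ZX bX n) (g t)) : SmC fun t => (g t).1 := by
  intro u
  refine ⟨continuous_iff_qA.2 fun m => continuous_iff_continuousAt.2 fun p => ?_,
    fun s => ((XS.sm (g s)).dXw u).dif⟩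
  rw [ContinuousAt, tendsto_iff_norm_sub_tendsto_zero]
  have h1 : Tendsto (fun q : T × E3 => √KS * ‖toL (lev ZX bX (m + 3 + u.length)) (g q.1) -
      toL (lev ZX bX (m + 3 + u.length)) (g p.1)‖) (𝓝 p) (𝓝 0) := by
    have := tendsto_iff_norm_sub_tendsto_zero.1
      (((hg (m + 3 + u.length)).comp continuous_fst).tendsto p)
    simpa using this.const_mul √KS
  have h2 : Tendsto (fun q : T × E3 => ‖toL (qA m) (dXw u (g p.1).1 q.2) -
      toL (qA m) (dXw u (g p.1).1 p.2)‖) (𝓝 p) (𝓝 0) :=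
    tendsto_iff_norm_sub_tendsto_zero.1
      (((continuous_iff_qA.1 ((XS.sm (g p.1)).dXw u).cont m).comp continuous_snd).tendsto p)
  have h3 := h1.add h2
  rw [add_zero] at h3
  refine squeeze_zero (fun _ => norm_nonneg _) (fun q => ?_) h3
  refine (norm_sub_le_norm_sub_add_norm_sub _ (toL (qA m) (dXw u (g p.1).1 q.2)) _).trans
    (add_le_add ?_ le_rfl)
  rw [← map_sub, ← map_sub, ← evX_apply, ← evX_apply, ← map_sub, evX_apply]
  exact qA_nr_le m u _ _

theorem smD_of_lev {g g' : ℝ → XS}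
    (h : ∀ n, (∀ t, HasDerivAt (fun t => toL (lev ZX bX n) (g t)) (toL (lev ZX bX n) (g' t)) t) ∧
      Continuous fun t => toL (lev ZX bX n) (g' t)) :
    SmD (fun t => (g t).1) fun t => (g' t).1 := by
  refine ⟨smC_of_lev fun n => continuous_iff_continuousAt.2 fun t => ((h n).1 t).continuousAt,
    smC_of_lev fun n => (h n).2, fun s x => hd_iff_qA.2 fun m => ?_⟩
  exact (evL m [] x).hasFDerivAt.comp_hasDerivAt s ((h _).1 s)

lemma tendsto_lq_of_unif (j : ℕ) : ∀ H : ℕ → XS,
    (∀ u m, ∃ η : ℕ → ℝ, Tendsto η atTop (𝓝 0) ∧ ∀ N y, (qA m).nr (dXw u (H N).1 y) ≤ η N) →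
    Tendsto (fun N => lq ZX nX j (H N)) atTop (𝓝 0) := by
  induction j with
  | zero =>
    intro H hH
    obtain ⟨η, hη, h⟩ := hH [] 0
    refine squeeze_zero (fun N => bX.nonneg _) (fun N => ?_) (by simpa using hη.pow 2)
    refine (le_abs_self _).trans (abs_tint_le_const fun y => ?_)
    rw [abs_of_nonneg (ip_self_nonneg _), ← nA_zero, ← nB_self]
    change (qA 0).B _ _ ≤ _
    rw [← PD.nr_sq]
    exact pow_le_pow_left₀ (PD.nr_nonneg _ _) (h N y) 2
  | succ j ih =>
    intro H hH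
    simp only [lq_succ]
    have h := tendsto_finsetSum (Finset.univ : Finset (Fin 3 ⊕ Fin 3))
      (f := fun z N => lq ZX nX j (ZX z (H N))) (a := fun _ => 0) (x := atTop) fun z _ => by
        refine ih _ fun u m => ?_
        rcases z with i | i
        · exact hH (i :: u) m
        · obtain ⟨η, hη, h⟩ := hH u (m + 1)
          refine ⟨η, hη, fun N y => le_trans ?_ (h N y)⟩
          have e : dXw u (ZX (Sum.inr i) (H N)).1 y = ap i (dXw u (H N).1 y) :=
            congrFun (dXw_clm (XS.sm (H N)) (ap i) u) y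
          rw [e, qA_nr, qA_nr]
          exact Real.sqrt_le_sqrt (nA_ap_le m i _)
    simpa using h

theorem XS_complete (x : ℕ → XS) (hx : ∀ n, ∃ η : ℕ → ℝ, Tendsto η atTop (𝓝 0) ∧
    ∀ N M, (lev ZX bX n).nr (x N - x M) ≤ η N + η M) :
    ∃ y, ∀ n, Tendsto (fun N => (lev ZX bX n).nr (x N - y)) atTop (𝓝 0) := by
  have hc : ∀ u m, ∃ η : ℕ → ℝ, Tendsto η atTop (𝓝 0) ∧ ∀ N M y,
      (qA m).nr (dXw u (x N).1 y - dXw u (x M).1 y) ≤ η N + η M := by
    intro u m
    obtain ⟨η, hη, h⟩ := hx (m + 3 + u.length)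
    refine ⟨fun N => √KS * η N, by simpa using hη.const_mul √KS, fun N M y => ?_⟩
    rw [← evX_apply, ← evX_apply, ← map_sub, evX_apply, ← mul_add]
    exact (qA_nr_le m u _ y).trans (mul_le_mul_of_nonneg_left (h N M) (Real.sqrt_nonneg _))
  have hl : ∀ u y, ∃ f, Tendsto (fun N => dXw u (x N).1 y) atTop (𝓝 f) := by
    intro u y
    refine exists_limit_of_nA _ fun m ε hε => ?_
    obtain ⟨η, hη, h⟩ := hc u m
    obtain ⟨N, hN⟩ := eventually_atTop.1
      (hη.eventually (gt_mem_nhds (show 0 < √ε / 2 by positivity)))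
    refine ⟨N, fun a ha b hb => ?_⟩
    have h1 := h a b y
    rw [qA_nr] at h1
    have h2 : √(nA m (dXw u (x a).1 y - dXw u (x b).1 y)) ≤ √ε := by
      linarith [hN a ha, hN b hb]
    exact (Real.sqrt_le_sqrt_iff hε.le).1 h2
  choose H hH using hl
  have hu : ∀ u m, ∃ η : ℕ → ℝ, Tendsto η atTop (𝓝 0) ∧ ∀ N y,
      (qA m).nr (dXw u (x N).1 y - H u y) ≤ η N := by
    intro u m
    obtain ⟨η, hη, h⟩ := hc u m
    refine ⟨η, hη, fun N y => ?_⟩
    have h1 := tendsto_iff_norm_sub_tendsto_zero.1 (tendsto_iff_qA.1 (hH u y) m)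
    have h2 := (tendsto_const_nhds (x := η N)).add hη |>.add h1
    rw [add_zero, add_zero] at h2
    refine ge_of_tendsto' h2 fun M => ?_
    rw [← map_sub]
    exact ((qA m).nr_triangle _ (dXw u (x M).1 y) _).trans (add_le_add (h N M y) le_rfl)
  have hunif : ∀ u m {α : Type} (r : α → E3), TendstoUniformly
      (fun N t => toL (qA m) (dXw u (x N).1 (r t))) (fun t => toL (qA m) (H u (r t))) atTop := by
    intro u m α r
    obtain ⟨η, hη, h⟩ := hu u m
    rw [Metric.tendstoUniformly_iff]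
    intro ε hε
    filter_upwards [hη.eventually (gt_mem_nhds hε)] with N hN t
    rw [dist_comm, dist_eq_norm, ← map_sub]
    exact (h N _).trans_lt hN
  have hcont : ∀ u, Continuous (H u) := fun u => continuous_iff_qA.2 fun m =>
    (hunif u m id).continuous (Frequently.of_forall fun N =>
      continuous_iff_qA.1 ((XS.sm (x N)).dXw u).cont m)
  have hder : ∀ u i y, HD (fun t : ℝ => H u (y + t • ev i)) (H (u ++ [i]) y) 0 := by
    intro u i y
    refine hd_iff_qA.2 fun m => ?_
    have h1 := hasDerivAt_of_tendstoUniformly (hunif (u ++ [i]) m fun t : ℝ => y + t • ev i)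
      (f := fun N t => toL (qA m) (dXw u (x N).1 (y + t • ev i)))
      (Eventually.of_forall fun N t => by
        rw [dXw_concat]
        exact hd_iff_qA.1 (((XS.sm (x N)).dXw u).dif.line i y t) m)
      (fun t => tendsto_iff_qA.1 (hH u _) m) 0
    simpa using h1
  have hsm : Sm (H []) := smC_coind (fun g : Unit → E3 → SV => ∃ u, g = fun _ => H u)
    (by
      rintro g ⟨u, rfl⟩
      exact ⟨(hcont u).comp continuous_snd, fun i => ⟨_, ⟨u ++ [i], rfl⟩, fun _ y => hder u i y⟩⟩)
    ⟨[], rfl⟩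
  have hper : Per (H []) := fun i y => tendsto_nhds_unique (hH [] _) (by
    simpa only [dXw_nil, XS.per (x _) i y] using hH [] y)
  have hdx : ∀ u w, dXw u (H w) = H (w ++ u) := by
    intro u
    induction u with
    | nil => intro w; simp
    | cons i u ih =>
      intro w
      have e : dX i (H w) = H (w ++ [i]) := funext fun y => dX_eq (hder w i y)
      rw [dXw_cons, e, ih]; simp
  refine ⟨⟨H [], hsm, hper⟩, fun n => ?_⟩
  have h1 := tendsto_finsetSum (range (n + 1))
    (f := fun j N => lq ZX nX j (x N - ⟨H [], hsm, hper⟩)) (a := fun _ => 0) (x := atTop)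
    fun j _ => tendsto_lq_of_unif j _ fun u m => by
      obtain ⟨η, hη, h⟩ := hu u m
      refine ⟨η, hη, fun N y => ?_⟩
      rw [← evX_apply, map_sub, evX_apply, evX_apply, hdx]
      exact h N y
  have h2 := h1.sqrt
  simp only [sum_const_zero, Real.sqrt_zero] at h2
  refine h2.congr fun N => ?_
  rw [← Real.sqrt_sq ((lev ZX bX n).nr_nonneg _), lev_nr_sq]
  rfl

end Pool.Agent.MP_187b32_an.Solver
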