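import Pool.Agent.MP_187b32_an.Solver.Space
import Pool.Agent.MP_187b32_an.Calc.EV
import Pool.Agent.MP_187b32_an.Calc.Cas

/-!
The finite dimensional spaces of trigonometric polynomials times Hermite functions.
-/

set_option autoImplicit false

open Filter Topology Finset Pool.Agent.Boltz

noncomputable section

namespace Pool.Agent.MP_187b32_an.Solver

/-- The function `cas n x • f`. -/
def casL (n : Fin 3 → ℤ) : SV →ₗ[ℝ] XS where
  toFun f := ⟨fun x => cas n x • f, (sm_cas n).smul_const f, (per_cas n).map (· • f)⟩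
  map_add' _ _ := Subtype.ext (funext fun _ => smul_add _ _ _)
  map_smul' _ _ := Subtype.ext (funext fun _ => smul_comm _ _ _)

@[simp] lemma casL_apply (n : Fin 3 → ℤ) (f : SV) (x : E3) : (casL n f).1 x = cas n x • f := rfl

/-- Frequencies in a box. -/
def fbox (N : ℕ) : Finset (Fin 3 → ℤ) := Fintype.piFinset fun _ => Finset.Icc (-(N : ℤ)) N

lemma mem_fbox {N : ℕ} {n : Fin 3 → ℤ} : n ∈ fbox N ↔ ∀ i, |n i| ≤ N := by
  simp [fbox, abs_le]

/-- The Galerkin spaces. -/
def WX (p : ℕ × ℕ) : Submodule ℝ XS := (fbox p.1).sup fun n => (HP p.2).map (casL n)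

instance (p : ℕ × ℕ) : FiniteDimensional ℝ (WX p) := Submodule.finiteDimensional_finset_sup _ _

lemma casL_mem {p : ℕ × ℕ} {n : Fin 3 → ℤ} {f : SV} (hn : ∀ i, |n i| ≤ p.1) (hf : f ∈ HP p.2) :
    casL n f ∈ WX p :=
  (le_sup (f := fun n => (HP p.2).map (casL n)) (mem_fbox.2 hn)) (Submodule.mem_map_of_mem hf)

lemma WX_map {p q : ℕ × ℕ} (T : XS →ₗ[ℝ] XS)
    (h : ∀ n : Fin 3 → ℤ, (∀ i, |n i| ≤ p.1) → ∀ f ∈ HP p.2, T (casL n f) ∈ WX q) :
    ∀ y ∈ WX p, T y ∈ WX q := by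
  have : WX p ≤ (WX q).comap T := by
    refine Finset.sup_le fun n hn => ?_
    rintro _ ⟨f, hf, rfl⟩
    exact h n (mem_fbox.1 hn) f hf
  exact fun y hy => this hy

lemma opD_casL (i : Fin 3) (n : Fin 3 → ℤ) (f : SV) :
    opD i (casL n f) = (2 * Real.pi * n i) • casL (-n) f := by
  refine Subtype.ext (funext fun x => ?_)
  have h := congrFun (dX_smul_const (sm_cas n).dif f i) x
  rw [dX_cas] at h
  change dX i (fun x => cas n x • f) x = (2 * Real.pi * n i) • cas (-n) x • f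
  rw [h, smul_smul]

lemma opV_casL (B : SV →L[ℝ] SV) (n : Fin 3 → ℤ) (f : SV) : opV B (casL n f) = casL n (B f) :=
  Subtype.ext (funext fun x => by simp)

lemma opD_mem (i : Fin 3) (p : ℕ × ℕ) : ∀ y ∈ WX p, opD i y ∈ WX p :=
  WX_map _ fun n hn f hf => by
    rw [opD_casL]
    exact Submodule.smul_mem _ _ (casL_mem (fun i => by simpa using hn i) hf)

/-- Shift of the degrees by a letter. -/
def shiftX : Fin 3 ⊕ Fin 3 → ℕ × ℕ → ℕ × ℕ
  | Sum.inl _, p => p
  | Sum.inr _, p => (p.1, p.2 + 1)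

lemma ZX_mem (z : Fin 3 ⊕ Fin 3) (p : ℕ × ℕ) : ∀ y ∈ WX p, ZX z y ∈ WX (shiftX z p) := by
  rcases z with i | j
  · exact opD_mem i p
  · exact WX_map _ fun n hn f hf => by
      rw [ZX, opV_casL]; exact casL_mem hn (ap_mem j hf)

lemma ZsX_mem (z : Fin 3 ⊕ Fin 3) (p : ℕ × ℕ) : ∀ y ∈ WX (shiftX z p), ZsX z y ∈ WX p := by
  rcases z with i | j
  · exact fun y hy => Submodule.neg_mem _ (opD_mem i p y hy)
  · exact WX_map _ fun n hn f hf => by
      rw [ZsX, opV_casL]; exact casL_mem hn (am_mem j f hf)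

lemma ZsX_mem_self (z : Fin 3 ⊕ Fin 3) (p : ℕ × ℕ) : ∀ y ∈ WX p, ZsX z y ∈ WX p := by
  rcases z with i | j
  · exact fun y hy => Submodule.neg_mem _ (opD_mem i p y hy)
  · exact WX_map _ fun n hn f hf => by
      rw [ZsX, opV_casL]; exact casL_mem hn (am_mem_self j hf)

/-- An orthonormal basis of the Hermite polynomials of degree at most `N`. -/
lemma exists_onb (N : ℕ) : ∃ (d : ℕ) (e : Fin d → SV), (∀ l, e l ∈ HP N) ∧
    (∀ f, ∑ l, ip f (e l) ^ 2 ≤ ip f f) ∧
    ∀ f, ((N : ℝ) + 1) * (ip f f - ∑ l, ip f (e l) ^ 2) ≤ nA 1 f := by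
  let q : PD SV := ⟨ip, ip_comm, ip_self_nonneg, fun _ => ip_self_eq_zero⟩
  let Y : Submodule ℝ (Lvl q) := HP N
  have : FiniteDimensional ℝ Y := (inferInstance : FiniteDimensional ℝ (HP N))
  let b := stdOrthonormalBasis ℝ Y
  let e : Fin (Module.finrank ℝ Y) → SV := fun l => ofL q (b l).1
  have he : ∀ l, e l ∈ HP N := fun l => (b l).2
  have hon : ∀ l m, ip (e l) (e m) = if l = m then 1 else 0 := fun l m =>
    orthonormal_iff_ite.1 b.orthonormal l m
  have hrep : ∀ h ∈ HP N, h = ∑ l, ip (e l) h • e l := by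
    intro h hh
    have h1 := congrArg (fun y : Y => ofL q y.1) (b.sum_repr' ⟨toL q h, hh⟩)
    simp only [AddSubmonoidClass.coe_finsetSum, SetLike.val_smul, map_sum, map_smul] at h1
    exact h1.symm
  let P : SV → SV := fun f => ∑ l, ip f (e l) • e l
  have hPm : ∀ f, P f ∈ HP N := fun f =>
    Submodule.sum_mem _ fun l _ => Submodule.smul_mem _ _ (he l)
  have hPe : ∀ f m, ip (P f) (e m) = ip f (e m) := by
    intro f m
    simp [P, hon]
  have horth : ∀ f, ∀ h ∈ HP N, ip (f - P f) h = 0 := by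
    intro f h hh
    rw [hrep h hh]
    simp [hPe]
  have hfP : ∀ f, ip f (P f) = ∑ l, ip f (e l) ^ 2 := by
    intro f
    simp [P, pow_two]
  have hsplit : ∀ f, ip (f - P f) (f - P f) = ip f f - ∑ l, ip f (e l) ^ 2 := by
    intro f
    rw [map_sub (ip (f - P f)), horth f _ (hPm f), map_sub, LinearMap.sub_apply, ip_comm (P f),
      hfP, sub_zero]
  refine ⟨_, e, he, fun f => ?_, fun f => ?_⟩
  · linarith [hsplit f, ip_self_nonneg (f - P f)]
  · rw [← hsplit]
    refine (gap_HP N _ (horth f)).trans ?_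
    have h1 := horth f _ (RR_mem 1 (hPm f))
    have h2 : nA 1 f = nA 1 (f - P f) + 2 * ip (f - P f) (RR 1 (P f)) + nA 1 (P f) := by
      simp only [nA_eq_ip_RR, map_sub, LinearMap.sub_apply]
      have := ip_RR_symm 1 f (P f)
      rw [ip_comm] at this
      linarith
    linarith [nA_nonneg 1 (P f)]

theorem specX (N : ℕ) (G : XS) (hG : ∀ y ∈ WX (N, N), bX.B G y = 0) :
    ((N : ℝ) + 1) * bX.B G G ≤ ∑ z, bX.B (ZX z G) (ZX z G) := by
  obtain ⟨d, e, he, hb, hg⟩ := exists_onb N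
  have hsm : ∀ (H : XS) l, Sm fun x => ip (H.1 x) (e l) :=
    fun H l => (XS.sm H).ip (Sm.const (e l))
  have hc : ∀ (H : XS) l, Continuous fun x => ip (H.1 x) (e l) ^ 2 :=
    fun H l => (hsm H l).cont.pow 2
  have h1 : ∀ l, ((N : ℝ) + 1) * tint (fun x => ip (G.1 x) (e l) ^ 2) ≤
      ∑ i, tint fun x => ip ((opD i G).1 x) (e l) ^ 2 := by
    intro l
    have h := gap_cas (hsm G l) ((XS.per G).map fun f => ip f (e l)) N fun n hn => by
      rw [← hG _ (casL_mem (p := (N, N)) hn (he l)), bX_B]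
      exact tint_congr fun x => by simp [mul_comm]
    refine h.trans (le_of_eq (sum_congr rfl fun i _ => tint_congr fun x => ?_))
    rw [dX_bilin ip continuous_ip (XS.sm G).dif (Dif.const (e l)), dX_const]
    simp
  have h2 : ∀ i, ∑ l, tint (fun x => ip ((opD i G).1 x) (e l) ^ 2) ≤
      bX.B (opD i G) (opD i G) := by
    intro i
    rw [← tint_sum _ fun l _ => hc _ l]
    exact tint_mono (continuous_finsetSum _ fun l _ => hc _ l) (XS.cont_ip _ _) fun x => hb _
  have h3 : ((N : ℝ) + 1) * (bX.B G G - ∑ l, tint (fun x => ip (G.1 x) (e l) ^ 2)) ≤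
      ∑ j, bX.B (opV (ap j) G) (opV (ap j) G) := by
    have hs := continuous_finsetSum Finset.univ fun l _ => hc G l
    simp only [bX_B]
    rw [← tint_sum _ fun l _ => hc _ l, ← tint_sub (XS.cont_ip _ _) hs, ← tint_const_mul,
      ← tint_sum _ fun j _ => XS.cont_ip _ _]
    refine tint_mono (continuous_const.mul ((XS.cont_ip _ _).sub hs))
      (continuous_finsetSum _ fun j _ => XS.cont_ip _ _) fun x => ?_
    refine (hg _).trans (le_of_eq ?_)
    rw [nA_one]; rfl
  have h4 := sum_le_sum fun l (_ : l ∈ univ) => h1 l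
  rw [sum_comm, ← mul_sum] at h4
  have h5 := sum_le_sum fun i (_ : i ∈ univ) => h2 i
  rw [Fintype.sum_sum_type]
  simp only [ZX]
  linarith

end Pool.Agent.MP_187b32_an.Solver
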