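import Pool.Agent.MP_187b32_an.Solver.Lvl

/-!
The abstract Galerkin theorem in a scale of norms.
-/

set_option autoImplicit false

open Set Filter Topology

noncomputable section

namespace Pool.Agent.MP_187b32_an.Solver

/-- A complete scale of inner product norms with finite rank projections. -/
structure Scale (X : Type*) [AddCommGroup X] [Module ℝ X] where
  q : ℕ → PD X
  Y : ℕ → Submodule ℝ X
  fin : ∀ N, FiniteDimensional ℝ (Y N)
  P : ℕ → X →ₗ[ℝ] X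
  PY : ∀ N x, P N x ∈ Y N
  YP : ∀ N, ∀ y ∈ Y N, P N y = y
  Psymm : ∀ N x y, (q 0).B (P N x) y = (q 0).B x (P N y)
  approx : ∀ n, ∃ ε : ℕ → ℝ, Tendsto ε atTop (𝓝 0) ∧
    ∀ N x, (q n).nr (x - P N x) ≤ ε N * (q (n + 1)).nr x
  compl : ∀ x : ℕ → X, (∀ n, ∃ η : ℕ → ℝ, Tendsto η atTop (𝓝 0) ∧
    ∀ N M, (q n).nr (x N - x M) ≤ η N + η M) →
    ∃ y, ∀ n, Tendsto (fun N => (q n).nr (x N - y)) atTop (𝓝 0)

variable {X : Type*} [AddCommGroup X] [Module ℝ X]

lemma le_of_sq_le_of_mul {c x y K : ℝ} (hc : 0 < c) (hxy : c * x ≤ y) (hK : y ^ 2 ≤ K) :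
    x ≤ c⁻¹ * √K := by
  rw [le_inv_mul_iff₀ hc]
  exact hxy.trans (Real.le_sqrt_of_sq_le hK)

theorem galerkin_core (S : Scale X) (A : ℝ → X →ₗ[ℝ] X) (F : ℝ → X) (a : ℝ) (x0 : X)
    (hA : ∀ x y, Continuous fun s => (S.q 0).B (A s x) y)
    (hF : ∀ y, Continuous fun s => (S.q 0).B (F s) y)
    (hAb : ∀ b n, ∃ m C, 0 ≤ C ∧ ∀ s ∈ Icc a b, ∀ x, (S.q n).nr (A s x) ≤ C * (S.q m).nr x)
    (hFb : ∀ b n, ∃ C, ∀ s ∈ Icc a b, (S.q n).nr (F s) ≤ C)
    (hE : ∀ b n, ∃ (Q : PD X) (c C : ℝ) (m : ℕ), 0 < c ∧ 0 ≤ C ∧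
      (∀ x, c * (S.q n).nr x ≤ Q.nr x) ∧ (∀ x, Q.nr x ≤ (S.q m).nr x) ∧
      (∀ N x y, Q.B (S.P N x) y = Q.B x (S.P N y)) ∧
      ∀ s ∈ Icc a b, ∀ x, -(C * Q.nr x ^ 2) ≤ Q.B (A s x) x) :
    ∃ g g' : ℝ → X, g a = x0 ∧ (∀ s, a ≤ s → g' s = F s - A s (g s)) ∧
      ∀ n, (∀ t, HasDerivAt (fun t => toL (S.q n) (g t)) (toL (S.q n) (g' t)) t) ∧
        Continuous fun t => toL (S.q n) (g' t) := by
  have hgal := fun N => @exists_galerkin X _ _ (S.q 0) (S.Y N) (S.fin N) (S.P N) (S.PY N) (S.YP N)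
    (S.Psymm N) A F hA hF a x0
  choose γ hY h0 hneg hder using hgal
  have hidem : ∀ N x, S.P N (S.P N x) = S.P N x := fun N x => S.YP N _ (S.PY N x)
  -- uniform bounds
  have hb : ∀ b n, ∃ M, ∀ N, ∀ s ∈ Icc a b, (S.q n).nr (γ N s) ≤ M := by
    intro b n
    obtain ⟨Q, c, C, m, hc, hC, h1, h2, h3, h4⟩ := hE b n
    obtain ⟨r, hr⟩ := hFb b m
    refine ⟨c⁻¹ * √((Q.nr x0 ^ 2 + r ^ 2) * Real.exp ((2 * C + 1) * (b - a))), fun N s hs => ?_⟩
    refine le_of_sq_le_of_mul hc (h1 _) ?_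
    have h5 := energy_gronwall (h := fun t => toL Q (γ N t)) (a := a) (b := b) (r := r) hC
      (fun t _ => (hder N Q).1 t) (fun t ht => by
        rw [max_eq_left ht.1, inner_toL, h3, S.YP N _ (hY N t), map_sub, LinearMap.sub_apply]
        have h6 := h4 t ht (γ N t)
        have h7 := Q.B_le (F t) (γ N t)
        have h8 : Q.nr (F t) * Q.nr (γ N t) ≤ r * Q.nr (γ N t) :=
          mul_le_mul_of_nonneg_right ((h2 _).trans (hr t ht)) (Q.nr_nonneg _)
        change _ ≤ C * Q.nr (γ N t) ^ 2 + r * Q.nr (γ N t)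
        linarith) s hs
    refine h5.trans ?_
    have h6 : Q.nr (γ N a) ≤ Q.nr x0 := by
      rw [h0]; exact Q.nr_proj_le _ (hidem N) (h3 N) x0
    have h7 := Q.nr_nonneg (γ N a)
    change (Q.nr (γ N a) ^ 2 + r ^ 2) * _ ≤ _
    gcongr
  have hb2 : ∀ b n, ∃ M, 0 ≤ M ∧ ∀ N, ∀ s ∈ Icc a b, (S.q n).nr (F s - A s (γ N s)) ≤ M := by
    intro b n
    obtain ⟨m, C, hC, h1⟩ := hAb b n
    obtain ⟨r, hr⟩ := hFb b n
    obtain ⟨M, hM⟩ := hb b m
    refine ⟨|r + C * M|, abs_nonneg _, fun N s hs => ?_⟩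
    refine ((S.q n).nr_sub_le _ _).trans (le_trans ?_ (le_abs_self _))
    have := mul_le_mul_of_nonneg_left (hM N s hs) hC
    linarith [hr s hs, h1 s hs (γ N s)]
  -- the residuals
  have hres : ∀ b n, ∃ ρ : ℕ → ℝ, Tendsto ρ atTop (𝓝 0) ∧ (∀ N, 0 ≤ ρ N) ∧
      (∀ N, (S.q n).nr (x0 - S.P N x0) ≤ ρ N) ∧ ∀ N, ∀ s ∈ Icc a b,
        (S.q n).nr ((F s - A s (γ N s)) - S.P N (F s - A s (γ N s))) ≤ ρ N := by
    intro b n
    obtain ⟨ε, hε, h1⟩ := S.approx n
    obtain ⟨M, hM, h2⟩ := hb2 b (n + 1)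
    have h3 := (S.q (n + 1)).nr_nonneg x0
    refine ⟨fun N => |ε N| * (M + (S.q (n + 1)).nr x0), ?_, fun N => by positivity,
      fun N => ?_, fun N s hs => ?_⟩
    · simpa using hε.abs.mul_const (M + (S.q (n + 1)).nr x0)
    · exact (h1 N _).trans (mul_le_mul (le_abs_self _) (by linarith) h3 (abs_nonneg _))
    · exact (h1 N _).trans (mul_le_mul (le_abs_self _) (by linarith [h2 N s hs])
        ((S.q (n + 1)).nr_nonneg _) (abs_nonneg _))
  -- Cauchy estimate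
  have hc : ∀ b n, ∃ η : ℕ → ℝ, Tendsto η atTop (𝓝 0) ∧
      ∀ N M, ∀ s ∈ Icc a b, (S.q n).nr (γ N s - γ M s) ≤ η N + η M := by
    intro b n
    obtain ⟨Q, c, C, m, hc, hC, h1, h2, h3, h4⟩ := hE b n
    obtain ⟨ρ, hρ, hρ0, hρ1, hρ2⟩ := hres b m
    set K := Real.exp ((2 * C + 1) * (b - a)) with hK
    have hK0 : 0 ≤ K := (Real.exp_pos _).le
    refine ⟨fun N => c⁻¹ * √(2 * K) * ρ N, by simpa using hρ.const_mul (c⁻¹ * √(2 * K)),
      fun N M s hs => ?_⟩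
    have h5 := energy_gronwall (h := fun t => toL Q (γ N t) - toL Q (γ M t)) (a := a) (b := b)
      (r := ρ N + ρ M) hC
      (fun t _ => ((hder N Q).1 t).sub ((hder M Q).1 t)) (fun t ht => by
        rw [max_eq_left ht.1, ← map_sub, ← map_sub, inner_toL]
        have h6 := h4 t ht (γ N t - γ M t)
        set RN := (F t - A t (γ N t)) - S.P N (F t - A t (γ N t)) with hRN
        set RM := (F t - A t (γ M t)) - S.P M (F t - A t (γ M t)) with hRM
        have h7 : S.P N (F t - A t (γ N t)) - S.P M (F t - A t (γ M t)) =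
            (RM - RN) - A t (γ N t - γ M t) := by
          rw [hRN, hRM, map_sub (A t)]; abel
        have h8 : Q.nr (RM - RN) ≤ ρ N + ρ M := by
          have := Q.nr_sub_le RM RN
          linarith [h2 RM, h2 RN, hρ2 N t ht, hρ2 M t ht]
        have h9 := Q.B_le (RM - RN) (γ N t - γ M t)
        have h10 := mul_le_mul_of_nonneg_right h8 (Q.nr_nonneg (γ N t - γ M t))
        rw [h7, map_sub Q.B, LinearMap.sub_apply]
        change _ ≤ C * Q.nr (γ N t - γ M t) ^ 2 + (ρ N + ρ M) * Q.nr (γ N t - γ M t)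
        linarith) s hs
    simp only [← map_sub] at h5
    have h6 : Q.nr (γ N a - γ M a) ≤ ρ N + ρ M := by
      rw [h0, h0]
      have := Q.nr_triangle (S.P N x0) x0 (S.P M x0)
      rw [Q.nr_sub_comm (S.P N x0) x0] at this
      linarith [h2 (x0 - S.P N x0), h2 (x0 - S.P M x0), hρ1 N, hρ1 M]
    have h7 : Q.nr (γ N s - γ M s) ^ 2 ≤ (ρ N + ρ M) ^ 2 * (2 * K) := by
      refine h5.trans ?_
      have h8 := Q.nr_nonneg (γ N a - γ M a)
      have h9 : Q.nr (γ N a - γ M a) ^ 2 ≤ (ρ N + ρ M) ^ 2 := by gcongr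
      change (Q.nr (γ N a - γ M a) ^ 2 + (ρ N + ρ M) ^ 2) * K ≤ _
      nlinarith
    have h8 := le_of_sq_le_of_mul hc (h1 _) h7
    rw [Real.sqrt_mul (sq_nonneg _), Real.sqrt_sq (add_nonneg (hρ0 N) (hρ0 M))] at h8
    calc _ ≤ _ := h8
      _ = _ := by ring
  -- the limit
  have hlim : ∀ t, ∃ y, ∀ n, Tendsto (fun N => (S.q n).nr (γ N (max t a) - y)) atTop (𝓝 0) := by
    intro t
    refine S.compl _ fun n => ?_
    obtain ⟨η, hη, h1⟩ := hc (max t a) n
    exact ⟨η, hη, fun N M => h1 N M _ ⟨le_max_right _ _, le_rfl⟩⟩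
  choose g₁ hg₁ using hlim
  have hg₁' : ∀ t, a ≤ t → ∀ n, Tendsto (fun N => (S.q n).nr (γ N t - g₁ t)) atTop (𝓝 0) := by
    intro t ht n
    simpa only [max_eq_left ht] using hg₁ t n
  have hunif : ∀ b n, ∃ η : ℕ → ℝ, Tendsto η atTop (𝓝 0) ∧
      ∀ N, ∀ s ∈ Icc a b, (S.q n).nr (γ N s - g₁ s) ≤ η N := by
    intro b n
    obtain ⟨η, hη, h1⟩ := hc b n
    refine ⟨η, hη, fun N s hs => ?_⟩
    have h2 : Tendsto (fun M => η N + η M + (S.q n).nr (γ M s - g₁ s)) atTop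
        (𝓝 (η N + 0 + 0)) := (tendsto_const_nhds.add hη).add (hg₁' s hs.1 n)
    rw [add_zero, add_zero] at h2
    refine ge_of_tendsto' h2 fun M => ?_
    linarith [(S.q n).nr_triangle (γ N s) (γ M s) (g₁ s), h1 N M s hs]
  have hg₁a : g₁ a = x0 := by
    obtain ⟨ρ, hρ, -, hρ1, -⟩ := hres a 0
    have h2 : Tendsto (fun N => ρ N + (S.q 0).nr (γ N a - g₁ a)) atTop (𝓝 (0 + 0)) :=
      hρ.add (hg₁' a le_rfl 0)
    rw [add_zero] at h2
    have h3 : (S.q 0).nr (x0 - g₁ a) ≤ 0 := by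
      refine ge_of_tendsto' h2 fun N => ?_
      have := (S.q 0).nr_triangle x0 (γ N a) (g₁ a)
      rw [h0] at this ⊢
      linarith [hρ1 N]
    exact (sub_eq_zero.1 ((S.q 0).eq_zero_of_nr (le_antisymm h3 ((S.q 0).nr_nonneg _)))).symm
  have hunif' : ∀ b n, ∃ η : ℕ → ℝ, Tendsto η atTop (𝓝 0) ∧ ∀ N, ∀ s ∈ Icc a b,
      (S.q n).nr (S.P N (F s - A s (γ N s)) - (F s - A s (g₁ s))) ≤ η N := by
    intro b n
    obtain ⟨m, C, hC, h1⟩ := hAb b n
    obtain ⟨η, hη, h2⟩ := hunif b m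
    obtain ⟨ρ, hρ, -, -, hρ2⟩ := hres b n
    refine ⟨fun N => ρ N + C * η N, by simpa using hρ.add (hη.const_mul C), fun N s hs => ?_⟩
    have h3 := (S.q n).nr_triangle (S.P N (F s - A s (γ N s))) (F s - A s (γ N s))
      (F s - A s (g₁ s))
    have h4 : F s - A s (γ N s) - (F s - A s (g₁ s)) = A s (g₁ s - γ N s) := by
      rw [map_sub]; abel
    rw [h4, (S.q n).nr_sub_comm _ (F s - A s (γ N s))] at h3
    have h5 := h1 s hs (g₁ s - γ N s)
    rw [(S.q m).nr_sub_comm] at h5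
    have h6 := mul_le_mul_of_nonneg_left (h2 N s hs) hC
    linarith [hρ2 N s hs]
  classical
  set g : ℝ → X := fun t => if a ≤ t then g₁ t else x0 + (t - a) • (F a - A a x0) with hg
  have hgge : ∀ t, a ≤ t → g t = g₁ t := fun t ht => if_pos ht
  set g' : ℝ → X := fun t => F (max t a) - A (max t a) (g₁ (max t a)) with hg'
  have hconv : ∀ n t, Tendsto (fun N => toL (S.q n) (γ N t)) atTop (𝓝 (toL (S.q n) (g t))) := by
    intro n t
    rw [tendsto_iff_norm_sub_tendsto_zero]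
    simp only [← map_sub]
    by_cases ht : a ≤ t
    · rw [hgge t ht]; exact hg₁' t ht n
    · have h1 : g t = x0 + (t - a) • (F a - A a x0) := if_neg ht
      obtain ⟨η, hη, h2⟩ := hunif' a n
      obtain ⟨ρ, hρ, -, hρ1, -⟩ := hres a n
      have h3 : Tendsto (fun N => ρ N + |t - a| * η N) atTop (𝓝 0) := by
        simpa using hρ.add (hη.const_mul |t - a|)
      refine squeeze_zero (fun N => norm_nonneg _) (fun N => ?_) h3
      have h4 := h2 N a ⟨le_rfl, le_rfl⟩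
      rw [hg₁a, h0] at h4
      have h5 : γ N t - g t = (S.P N x0 - x0) +
          (t - a) • (S.P N (F a - A a (S.P N x0)) - (F a - A a x0)) := by
        rw [h1, hneg N t (le_of_not_ge ht), smul_sub (t - a) (S.P N _)]; abel
      change (S.q n).nr (γ N t - g t) ≤ _
      rw [h5]
      refine ((S.q n).nr_add_le _ _).trans ?_
      rw [(S.q n).nr_smul, (S.q n).nr_sub_comm (S.P N x0)]
      have h6 := mul_le_mul_of_nonneg_left h4 (abs_nonneg (t - a))
      linarith [hρ1 N]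
  have hconv' : ∀ n b, a ≤ b → TendstoUniformlyOn
      (fun N t => toL (S.q n) (S.P N (F (max t a) - A (max t a) (γ N (max t a)))))
      (fun t => toL (S.q n) (g' t)) atTop (Iio b) := by
    intro n b hab
    obtain ⟨η, hη, h2⟩ := hunif' b n
    rw [Metric.tendstoUniformlyOn_iff]
    intro ε hε
    filter_upwards [hη.eventually (gt_mem_nhds hε)] with N hN t ht
    rw [dist_comm, dist_eq_norm, ← map_sub]
    exact (h2 N _ ⟨le_max_right _ _, max_le (le_of_lt ht) hab⟩).trans_lt hN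
  refine ⟨g, g', by rw [hgge a le_rfl, hg₁a], fun s hs => ?_, fun n => ⟨fun t => ?_, ?_⟩⟩
  · simp only [hg', max_eq_left hs, hgge s hs]
  · have hb : t ∈ Iio (max t a + 1) :=
      mem_Iio.2 (lt_of_le_of_lt (le_max_left _ _) (lt_add_one _))
    exact hasDerivAt_of_tendstoUniformlyOn isOpen_Iio
      (hconv' n _ ((le_max_right _ _).trans (lt_add_one _).le))
      (Eventually.of_forall fun N x _ => (hder N (S.q n)).1 x) (fun x _ => hconv n x) hb
  · rw [continuous_iff_continuousAt]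
    intro t
    have hb : t ∈ Iio (max t a + 1) :=
      mem_Iio.2 (lt_of_le_of_lt (le_max_left _ _) (lt_add_one _))
    have h1 := (hconv' n _ ((le_max_right t a).trans (lt_add_one _).le)).continuousOn
      (Frequently.of_forall fun N =>
        ((hder N (S.q n)).2.comp (continuous_id.max continuous_const)).continuousOn)
    exact h1.continuousAt (isOpen_Iio.mem_nhds hb)

end Pool.Agent.MP_187b32_an.Solver
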