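import Pool.Agent.MP_187b32_an.Solver.Core

/-!
Norms built from a finite family of first order letters, and the energy inequality at all orders
for an operator in a class closed under commutators with the letters.
-/

set_option autoImplicit false

open Set Filter Topology Finset

noncomputable section

namespace Pool.Agent.MP_187b32_an.Solver

variable {X : Type*} [AddCommGroup X] [Module ℝ X] {ι : Type*} [Fintype ι]

/-- The bilinear form of order `n`: sum over all words of length `n` in the letters. -/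
def NB (Z : ι → X →ₗ[ℝ] X) (b : X →ₗ[ℝ] X →ₗ[ℝ] ℝ) : ℕ → X →ₗ[ℝ] X →ₗ[ℝ] ℝ
  | 0 => b
  | n + 1 => ∑ z, (NB Z b n).compl₁₂ (Z z) (Z z)

/-- Sum of `d` over all words of length `n` in the letters. -/
def lq (Z : ι → X →ₗ[ℝ] X) (d : X → ℝ) : ℕ → X → ℝ
  | 0, x => d x
  | n + 1, x => ∑ z, lq Z d n (Z z x)

/-- Sum of `d` over all words of length less than `n`. -/
def sq (Z : ι → X →ₗ[ℝ] X) (d : X → ℝ) (n : ℕ) (x : X) : ℝ := ∑ j ∈ range n, lq Z d j x

/-- Commutator with a letter. -/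
def ad (Z : X →ₗ[ℝ] X) (A : ℝ → X →ₗ[ℝ] X) : ℝ → X →ₗ[ℝ] X := fun s => Z ∘ₗ A s - A s ∘ₗ Z

lemma ad_apply (Z : X →ₗ[ℝ] X) (A : ℝ → X →ₗ[ℝ] X) (s : ℝ) (x : X) :
    ad Z A s x = Z (A s x) - A s (Z x) := rfl

variable (Z : ι → X →ₗ[ℝ] X)

lemma NB_succ (b : X →ₗ[ℝ] X →ₗ[ℝ] ℝ) (n : ℕ) (x y : X) :
    NB Z b (n + 1) x y = ∑ z, NB Z b n (Z z x) (Z z y) := by
  simp [NB, LinearMap.sum_apply]

lemma NB_self (b : X →ₗ[ℝ] X →ₗ[ℝ] ℝ) (n : ℕ) (x : X) :
    NB Z b n x x = lq Z (fun x => b x x) n x := by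
  induction n generalizing x with
  | zero => rfl
  | succ n ih => simp only [NB_succ, lq, ih]

lemma NB_symm (b : PD X) (n : ℕ) (x y : X) : NB Z b.B n x y = NB Z b.B n y x := by
  induction n generalizing x y with
  | zero => exact b.symm x y
  | succ n ih => simp only [NB_succ, ih (Z _ x)]

variable {Z}

lemma lq_nonneg {d : X → ℝ} (hd : ∀ x, 0 ≤ d x) (n : ℕ) (x : X) : 0 ≤ lq Z d n x := by
  induction n generalizing x with
  | zero => exact hd x
  | succ n ih => exact sum_nonneg fun z _ => ih _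

lemma lq_succ (d : X → ℝ) (n : ℕ) (x : X) : lq Z d (n + 1) x = ∑ z, lq Z d n (Z z x) := rfl

lemma sq_nonneg' {d : X → ℝ} (hd : ∀ x, 0 ≤ d x) (n : ℕ) (x : X) : 0 ≤ sq Z d n x :=
  sum_nonneg fun _ _ => lq_nonneg hd _ _

lemma sq_succ (d : X → ℝ) (n : ℕ) (x : X) : sq Z d (n + 1) x = sq Z d n x + lq Z d n x :=
  sum_range_succ _ _

lemma sq_one (d : X → ℝ) (x : X) : sq Z d 1 x = d x := by simp [sq, lq]

lemma sq_two (d : X → ℝ) (x : X) : sq Z d 2 x = d x + ∑ z, d (Z z x) := by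
  simp [sq, lq, sum_range_succ]

lemma sq_mono {d : X → ℝ} (hd : ∀ x, 0 ≤ d x) {n m : ℕ} (h : n ≤ m) (x : X) :
    sq Z d n x ≤ sq Z d m x :=
  sum_le_sum_of_subset_of_nonneg (range_mono h) fun _ _ _ => lq_nonneg hd _ _

lemma lq_le_sq {d : X → ℝ} (hd : ∀ x, 0 ≤ d x) (n : ℕ) (x : X) :
    lq Z d n x ≤ sq Z d (n + 1) x := by
  rw [sq_succ]; linarith [sq_nonneg' (Z := Z) hd n x]

lemma sum_sq_eq (d : X → ℝ) (n : ℕ) (x : X) :
    ∑ z, sq Z d n (Z z x) + d x = sq Z d (n + 1) x := by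
  simp only [sq]
  rw [sum_range_succ', sum_comm]
  rfl

lemma sum_sq_le {d : X → ℝ} (hd : ∀ x, 0 ≤ d x) (n : ℕ) (x : X) :
    ∑ z, sq Z d n (Z z x) ≤ sq Z d (n + 1) x := by
  rw [← sum_sq_eq]; linarith [hd x]

lemma sq_Z_le {d : X → ℝ} (hd : ∀ x, 0 ≤ d x) (n : ℕ) (z : ι) (x : X) :
    sq Z d n (Z z x) ≤ sq Z d (n + 1) x :=
  (single_le_sum (f := fun z => sq Z d n (Z z x)) (fun _ _ => sq_nonneg' hd _ _)
    (mem_univ z)).trans (sum_sq_le hd n x)

lemma lq_add_le (b : PD X) (n : ℕ) (x y : X) : lq Z (fun x => b.B x x) n (x + y) ≤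
    2 * lq Z (fun x => b.B x x) n x + 2 * lq Z (fun x => b.B x x) n y := by
  have h := lq_nonneg (Z := Z) b.nonneg n (x - y)
  simp only [← NB_self, map_add, map_sub, LinearMap.add_apply, LinearMap.sub_apply] at h ⊢
  linarith

section Tame

variable (Z) (b : PD X) (d : X → ℝ) (I : Set ℝ)

/-- First order bound, with small constant on the dissipation of top order. -/
def Tame (A : ℝ → X →ₗ[ℝ] X) : Prop :=
  ∀ ε : ℝ, 0 < ε → ∃ C : ℝ, 0 ≤ C ∧ ∀ s ∈ I, ∀ f h, |b.B (A s f) h| ≤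
    ε * (sq Z d 2 f + d h) + C * (sq Z (fun x => b.B x x) 2 f + d f + b.B h h)

/-- Bounded with a loss of finitely many letters. -/
def Bdd (A : ℝ → X →ₗ[ℝ] X) : Prop :=
  ∃ (m : ℕ) (C : ℝ), 0 ≤ C ∧ ∀ s ∈ I, ∀ f,
    b.B (A s f) (A s f) ≤ C * sq Z (fun x => b.B x x) m f

variable {Z b d I} {𝒞 : (ℝ → X →ₗ[ℝ] X) → Prop}

theorem tame_all (hd : ∀ x, 0 ≤ d x) (had : ∀ A, 𝒞 A → ∀ z, 𝒞 (ad (Z z) A))
    (ht : ∀ A, 𝒞 A → Tame Z b d I A) (n : ℕ) : ∀ A, 𝒞 A →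
    ∀ ε : ℝ, 0 < ε → ∃ C : ℝ, 0 ≤ C ∧ ∀ s ∈ I, ∀ f h, |NB Z b.B n (A s f) h| ≤
      ε * (sq Z d (n + 2) f + sq Z d (n + 1) h) + C * (sq Z (fun x => b.B x x) (n + 2) f +
        sq Z d (n + 1) f + sq Z (fun x => b.B x x) (n + 1) h) := by
  induction n with
  | zero =>
    intro A hA ε hε
    obtain ⟨C, hC, h⟩ := ht A hA ε hε
    exact ⟨C, hC, fun s hs f h' => by simpa only [zero_add, sq_one, NB] using h s hs f h'⟩
  | succ n ih =>
    intro A hA ε hε
    set κ : ℝ := (Fintype.card ι : ℝ) with hκ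
    have hκ0 : 0 ≤ κ := Nat.cast_nonneg _
    have hε1 : 0 < ε / (κ + 2) := by positivity
    obtain ⟨C1, hC1, h1⟩ := ih A hA _ hε1
    choose C2 hC2 h2 using fun z => ih _ (had A hA z) _ hε1
    have hS : 0 ≤ ∑ z, C2 z := sum_nonneg fun z _ => hC2 z
    refine ⟨C1 + (∑ z, C2 z) * (κ + 1), by positivity, fun s hs f h => ?_⟩
    set nn : X → ℝ := fun x => b.B x x with hnn
    have hn : ∀ x, 0 ≤ nn x := b.nonneg
    have e1 : ∀ z, |NB Z b.B n (Z z (A s f)) (Z z h)| ≤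
        (ε / (κ + 2) * (sq Z d (n + 2) (Z z f) + sq Z d (n + 1) (Z z h)) +
          C1 * (sq Z nn (n + 2) (Z z f) + sq Z d (n + 1) (Z z f) + sq Z nn (n + 1) (Z z h))) +
        (ε / (κ + 2) * (sq Z d (n + 2) f + sq Z d (n + 1) (Z z h)) +
          (∑ z, C2 z) * (sq Z nn (n + 2) f + sq Z d (n + 1) f + sq Z nn (n + 1) (Z z h))) := by
      intro z
      have e2 : Z z (A s f) = A s (Z z f) + ad (Z z) A s f := by rw [ad_apply]; abel
      rw [e2, map_add, LinearMap.add_apply]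
      refine (abs_add_le _ _).trans (add_le_add (h1 s hs _ _) ((h2 z s hs _ _).trans ?_))
      have e3 : C2 z ≤ ∑ z, C2 z := single_le_sum (fun z _ => hC2 z) (mem_univ z)
      have := sq_nonneg' (Z := Z) hn (n + 2) f
      have := sq_nonneg' (Z := Z) hd (n + 1) f
      have := sq_nonneg' (Z := Z) hn (n + 1) (Z z h)
      gcongr
    rw [NB_succ]
    refine (abs_sum_le_sum_abs _ _).trans ((sum_le_sum fun z _ => e1 z).trans ?_)
    simp only [sum_add_distrib, ← mul_sum, sum_const, card_univ, nsmul_eq_mul, ← hκ]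
    have a1 := sum_sq_le (Z := Z) hd (n + 2) f
    have a2 := sum_sq_le (Z := Z) hd (n + 1) h
    have a3 := sum_sq_le (Z := Z) hn (n + 2) f
    have a4 := sum_sq_le (Z := Z) hd (n + 1) f
    have a5 := sum_sq_le (Z := Z) hn (n + 1) h
    have a6 := sq_mono (Z := Z) hd (Nat.le_succ (n + 2)) f
    have a7 := sq_mono (Z := Z) hn (Nat.le_succ (n + 2)) f
    have a8 := sq_mono (Z := Z) hd (Nat.le_succ (n + 1)) f
    have p1 := sq_nonneg' (Z := Z) hd (n + 1 + 2) f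
    have p2 := sq_nonneg' (Z := Z) hd (n + 1 + 1) h
    have p3 := sq_nonneg' (Z := Z) hn (n + 1 + 2) f
    have p4 := sq_nonneg' (Z := Z) hd (n + 1 + 1) f
    have p5 := sq_nonneg' (Z := Z) hn (n + 1 + 1) h
    have hεe : ε = ε / (κ + 2) * (κ + 2) := by field_simp
    set e := ε / (κ + 2)
    simp only [Nat.succ_eq_add_one, show n + 2 + 1 = n + 1 + 2 from rfl,
      show n + 2 = n + 1 + 1 from rfl] at *
    calc _ ≤ (e * (sq Z d (n + 1 + 2) f + sq Z d (n + 1 + 1) h) +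
          C1 * (sq Z nn (n + 1 + 2) f + sq Z d (n + 1 + 1) f + sq Z nn (n + 1 + 1) h)) +
        (e * (κ * sq Z d (n + 1 + 2) f + sq Z d (n + 1 + 1) h) +
          (∑ z, C2 z) * (κ * sq Z nn (n + 1 + 2) f + κ * sq Z d (n + 1 + 1) f +
            sq Z nn (n + 1 + 1) h)) := by gcongr
      _ ≤ _ := by
        rw [hεe]
        nlinarith [mul_nonneg hε1.le p1, mul_nonneg (mul_nonneg hε1.le hκ0) p2,
          mul_nonneg hS p3, mul_nonneg hS p4, mul_nonneg (mul_nonneg hS hκ0) p5]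

theorem main_all (hd : ∀ x, 0 ≤ d x) (had : ∀ A, 𝒞 A → ∀ z, 𝒞 (ad (Z z) A))
    (ht : ∀ A, 𝒞 A → Tame Z b d I A) {A : ℝ → X →ₗ[ℝ] X} (hA : 𝒞 A) {κ0 C0 : ℝ}
    (h0 : ∀ s ∈ I, ∀ h, κ0 * d h - C0 * b.B h h ≤ b.B (A s h) h) (n : ℕ) :
    ∀ ε : ℝ, 0 < ε → ∃ C : ℝ, 0 ≤ C ∧ ∀ s ∈ I, ∀ g,
      κ0 * lq Z d n g - ε * sq Z d (n + 1) g -
        C * (sq Z (fun x => b.B x x) (n + 1) g + sq Z d n g) ≤ NB Z b.B n (A s g) g := by
  induction n with
  | zero =>
    intro ε hε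
    refine ⟨|C0|, abs_nonneg _, fun s hs g => le_trans ?_ (h0 s hs g)⟩
    simp only [zero_add, sq_one, lq]
    have h1 : sq Z d 0 g = 0 := by simp [sq]
    have h2 := mul_le_mul_of_nonneg_right (le_abs_self C0) (b.nonneg g)
    have h3 := mul_nonneg hε.le (hd g)
    rw [h1, add_zero]
    linarith
  | succ n ih =>
    intro ε hε
    set κ : ℝ := (Fintype.card ι : ℝ) with hκ
    have hκ0 : 0 ≤ κ := Nat.cast_nonneg _
    have hε1 : 0 < ε / (κ + 2) := by positivity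
    obtain ⟨C1, hC1, h1⟩ := ih _ hε1
    choose C2 hC2 h2 using fun z => tame_all hd had ht n _ (had A hA z) _ hε1
    have hS : 0 ≤ ∑ z, C2 z := sum_nonneg fun z _ => hC2 z
    refine ⟨C1 + (∑ z, C2 z) * (κ + 1), by positivity, fun s hs g => ?_⟩
    set nn : X → ℝ := fun x => b.B x x with hnn
    have hn : ∀ x, 0 ≤ nn x := b.nonneg
    have e1 : ∀ z, (κ0 * lq Z d n (Z z g) - ε / (κ + 2) * sq Z d (n + 1) (Z z g) -
        C1 * (sq Z nn (n + 1) (Z z g) + sq Z d n (Z z g))) -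
        (ε / (κ + 2) * (sq Z d (n + 2) g + sq Z d (n + 1) (Z z g)) +
          (∑ z, C2 z) * (sq Z nn (n + 2) g + sq Z d (n + 1) g + sq Z nn (n + 1) (Z z g))) ≤
        NB Z b.B n (Z z (A s g)) (Z z g) := by
      intro z
      have e2 : Z z (A s g) = A s (Z z g) + ad (Z z) A s g := by rw [ad_apply]; abel
      rw [e2, map_add, LinearMap.add_apply]
      have e3 : C2 z ≤ ∑ z, C2 z := single_le_sum (fun z _ => hC2 z) (mem_univ z)
      have e4 := (abs_le.1 (h2 z s hs g (Z z g))).1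
      have e5 := h1 s hs (Z z g)
      have := sq_nonneg' (Z := Z) hn (n + 2) g
      have := sq_nonneg' (Z := Z) hd (n + 1) g
      have := sq_nonneg' (Z := Z) hn (n + 1) (Z z g)
      have e6 : C2 z * (sq Z nn (n + 2) g + sq Z d (n + 1) g + sq Z nn (n + 1) (Z z g)) ≤
        (∑ z, C2 z) * (sq Z nn (n + 2) g + sq Z d (n + 1) g + sq Z nn (n + 1) (Z z g)) := by
        gcongr
      linarith
    rw [NB_succ]
    refine le_trans ?_ (sum_le_sum fun z _ => e1 z)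
    simp only [sum_add_distrib, sum_sub_distrib, ← mul_sum, sum_const, card_univ, nsmul_eq_mul,
      ← hκ, ← lq_succ]
    have a1 := sum_sq_le (Z := Z) hd (n + 1) g
    have a2 := sum_sq_le (Z := Z) hn (n + 1) g
    have a3 := sum_sq_le (Z := Z) hd n g
    have p1 := sq_nonneg' (Z := Z) hd (n + 1 + 1) g
    have p3 := sq_nonneg' (Z := Z) hn (n + 1 + 1) g
    have p4 := sq_nonneg' (Z := Z) hd (n + 1) g
    have hεe : ε = ε / (κ + 2) * (κ + 2) := by field_simp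
    set e := ε / (κ + 2)
    simp only [show n + 2 = n + 1 + 1 from rfl] at *
    rw [hεe]
    nlinarith [mul_le_mul_of_nonneg_left a1 hε1.le, mul_le_mul_of_nonneg_left a2 hC1,
      mul_le_mul_of_nonneg_left a3 hC1, mul_le_mul_of_nonneg_left a2 hS, mul_nonneg hS p4]

theorem energy_all (hd : ∀ x, 0 ≤ d x) (had : ∀ A, 𝒞 A → ∀ z, 𝒞 (ad (Z z) A))
    (ht : ∀ A, 𝒞 A → Tame Z b d I A) {A : ℝ → X →ₗ[ℝ] X} (hA : 𝒞 A) {κ0 C0 : ℝ} (hκ0 : 0 < κ0)
    (h0 : ∀ s ∈ I, ∀ h, κ0 * d h - C0 * b.B h h ≤ b.B (A s h) h) (n : ℕ) :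
    ∃ δ : ℕ → ℝ, (∀ j, 0 < δ j ∧ δ j ≤ 1) ∧ ∃ κ1 C : ℝ, 0 < κ1 ∧ 0 ≤ C ∧ ∀ s ∈ I, ∀ g,
      κ1 * sq Z d (n + 1) g - C * sq Z (fun x => b.B x x) (n + 1) g ≤
        ∑ j ∈ range (n + 1), δ j * NB Z b.B j (A s g) g := by
  induction n with
  | zero =>
    refine ⟨fun _ => 1, fun _ => ⟨one_pos, le_rfl⟩, κ0, |C0|, hκ0, abs_nonneg _, fun s hs g => ?_⟩
    simp only [zero_add, sq_one, range_one, sum_singleton, one_mul, NB]
    have h2 := mul_le_mul_of_nonneg_right (le_abs_self C0) (b.nonneg g)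
    linarith [h0 s hs g]
  | succ n ih =>
    obtain ⟨δ, hδ, κ1, C, hκ1, hC, h1⟩ := ih
    obtain ⟨C', hC', h2⟩ := main_all hd had ht hA h0 (n + 1) (κ0 / 2) (by positivity)
    set θ : ℝ := min 1 (κ1 / (2 * (C' + κ0 / 2))) with hθ
    have hθ0 : 0 < θ := lt_min one_pos (by positivity)
    have hθ1 : θ ≤ 1 := min_le_left _ _
    have hθ2 : θ * (C' + κ0 / 2) ≤ κ1 / 2 := by
      have : θ ≤ κ1 / (2 * (C' + κ0 / 2)) := min_le_right _ _
      rw [le_div_iff₀ (by positivity)] at this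
      linarith
    classical
    refine ⟨Function.update δ (n + 1) θ, fun j => ?_, min (κ1 / 2) (θ * κ0 / 2), C + C',
      lt_min (by positivity) (by positivity), by positivity, fun s hs g => ?_⟩
    · by_cases hj : j = n + 1
      · subst hj; simp [hθ0, hθ1]
      · rw [Function.update_of_ne hj]; exact hδ j
    · rw [sum_range_succ, Function.update_self, sum_congr rfl fun j hj => by
        rw [Function.update_of_ne (mem_range.1 hj).ne]]
      have e1 := h1 s hs g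
      have e2 := mul_le_mul_of_nonneg_left (h2 s hs g) hθ0.le
      set nn : X → ℝ := fun x => b.B x x with hnn
      have hn : ∀ x, 0 ≤ nn x := b.nonneg
      have p1 := sq_nonneg' (Z := Z) hd (n + 1) g
      have p2 := lq_nonneg (Z := Z) hd (n + 1) g
      have p3 := sq_nonneg' (Z := Z) hn (n + 1 + 1) g
      have a1 := sq_mono (Z := Z) hn (Nat.le_succ (n + 1)) g
      rw [sq_succ d (n + 1)] at e2 ⊢
      have m1 := mul_le_mul_of_nonneg_right (min_le_left (κ1 / 2) (θ * κ0 / 2)) p1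
      have m2 := mul_le_mul_of_nonneg_right (min_le_right (κ1 / 2) (θ * κ0 / 2)) p2
      have m3 := mul_le_mul_of_nonneg_right hθ2 p1
      have m4 := mul_le_mul_of_nonneg_left a1 hC
      have m5 := mul_le_mul_of_nonneg_right hθ1 (mul_nonneg hC' p3)
      simp only [Nat.succ_eq_add_one] at *
      nlinarith

theorem bdd_all (had : ∀ A, 𝒞 A → ∀ z, 𝒞 (ad (Z z) A))
    (hb : ∀ A, 𝒞 A → Bdd Z b I A) (n : ℕ) : ∀ A, 𝒞 A →
    ∃ (m : ℕ) (C : ℝ), 0 ≤ C ∧ ∀ s ∈ I, ∀ f,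
      lq Z (fun x => b.B x x) n (A s f) ≤ C * sq Z (fun x => b.B x x) m f := by
  induction n with
  | zero => exact hb
  | succ n ih =>
    intro A hA
    obtain ⟨m1, C1, hC1, h1⟩ := ih A hA
    choose m2 C2 hC2 h2 using fun z => ih _ (had A hA z)
    have hS : 0 ≤ ∑ z, C2 z := sum_nonneg fun z _ => hC2 z
    refine ⟨m1 + 1 + ∑ z, m2 z, 2 * C1 + 2 * ∑ z, C2 z, by positivity, fun s hs f => ?_⟩
    set nn : X → ℝ := fun x => b.B x x with hnn
    have hn : ∀ x, 0 ≤ nn x := b.nonneg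
    set m := m1 + 1 + ∑ z, m2 z with hm
    have e1 : ∀ z, lq Z nn n (Z z (A s f)) ≤
        2 * (C1 * sq Z nn m1 (Z z f)) + 2 * (C2 z * sq Z nn m f) := by
      intro z
      have e2 : Z z (A s f) = A s (Z z f) + ad (Z z) A s f := by rw [ad_apply]; abel
      rw [e2]
      have e3 : m2 z ≤ m := (single_le_sum (f := m2) (fun _ _ => Nat.zero_le _)
        (mem_univ z)).trans (Nat.le_add_left _ _)
      have e4 := mul_le_mul_of_nonneg_left (sq_mono (Z := Z) hn e3 f) (hC2 z)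
      linarith [lq_add_le (Z := Z) b n (A s (Z z f)) (ad (Z z) A s f), h1 s hs (Z z f),
        h2 z s hs f]
    rw [lq_succ]
    refine (sum_le_sum fun z _ => e1 z).trans ?_
    simp only [sum_add_distrib, ← mul_sum, ← sum_mul]
    have a1 := (sum_sq_le (Z := Z) hn m1 f).trans
      (sq_mono (Z := Z) hn (Nat.le_add_right (m1 + 1) (∑ z, m2 z)) f)
    nlinarith [mul_le_mul_of_nonneg_left a1 hC1]

end Tame

end Pool.Agent.MP_187b32_an.Solver
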