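import Mathlib

/-!
Global solutions of linear equations in a Banach space (forward in time, extended linearly
backwards), and the energy form of the Gronwall inequality.
-/

set_option autoImplicit false

open Set Filter Topology MeasureTheory intervalIntegral
open scoped BoundedContinuousFunction

noncomputable section

namespace Pool.Agent.MP_187b32_an.Solver

section ODE

variable {E : Type*} [NormedAddCommGroup E] [NormedSpace ℝ E] [CompleteSpace E]

theorem exists_linear_ode (B : ℝ → E →L[ℝ] E) (F : ℝ → E) (hB : Continuous B) (hF : Continuous F)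
    (a : ℝ) (x0 : E) :
    ∃ γ : ℝ → E, γ a = x0 ∧ (∀ t, t ≤ a → γ t = x0 + (t - a) • (F a - B a x0)) ∧
      ∀ t, HasDerivAt γ (F (max t a) - B (max t a) (γ (max t a))) t := by
  set β : ℝ → ℝ := fun τ => ‖B τ‖ + ‖F τ‖ with hβ
  have hβc : Continuous β := hB.norm.add hF.norm
  have hβ0 : ∀ τ, 0 ≤ β τ := fun τ => add_nonneg (norm_nonneg _) (norm_nonneg _)
  set w : ℝ → ℝ := fun t => Real.exp (2 * ∫ τ in a..t, β τ) with hw
  have hwd : ∀ t, HasDerivAt w (2 * (β t * w t)) t := by
    intro t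
    have h2 : HasDerivAt (fun t => ∫ τ in a..t, β τ) (β t) t :=
      (hβc.integral_hasStrictDerivAt a t).hasDerivAt
    have h3 := (h2.const_mul 2).exp
    convert h3 using 1
    simp only [hw]; ring
  have hwc : Continuous w := continuous_iff_continuousAt.2 fun t => (hwd t).continuousAt
  have hwpos : ∀ t, 0 < w t := fun t => Real.exp_pos _
  have hwa : w a = 1 := by simp [hw]
  have hw1 : ∀ t, a ≤ t → 1 ≤ w t := by
    intro t ht
    apply Real.one_le_exp
    have : 0 ≤ ∫ τ in a..t, β τ := integral_nonneg ht fun τ _ => hβ0 τ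
    linarith
  have hint : ∀ t, ∫ τ in a..t, β τ * w τ = (w t - 1) / 2 := by
    intro t
    have := integral_eq_sub_of_hasDerivAt (a := a) (b := t) (f := w)
      (f' := fun τ => 2 * (β τ * w τ)) (fun τ _ => hwd τ)
      ((continuous_const.mul (hβc.mul hwc)).intervalIntegrable _ _)
    rw [intervalIntegral.integral_const_mul, hwa] at this
    linarith
  -- the integrand
  set I : (ℝ →ᵇ E) → ℝ → E := fun u τ => F τ - B τ (w τ • u τ) with hI
  have hIc : ∀ u, Continuous (I u) := fun u =>
    hF.sub (hB.clm_apply (hwc.smul u.continuous))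
  have hmax : Continuous fun t : ℝ => max t a := continuous_id.max continuous_const
  have hΦc : ∀ u, Continuous fun t => (w (max t a))⁻¹ • (x0 + ∫ τ in a..max t a, I u τ) := by
    intro u
    have h1 : Continuous fun t => ∫ τ in a..t, I u τ :=
      continuous_iff_continuousAt.2 fun t =>
        ((hIc u).integral_hasStrictDerivAt a t).hasDerivAt.continuousAt
    exact ((hwc.comp hmax).inv₀ fun t => (hwpos _).ne').smul (continuous_const.add (h1.comp hmax))
  have key : ∀ (G : ℝ → E) (d : ℝ), Continuous G → 0 ≤ d →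
      (∀ τ, a ≤ τ → ‖G τ‖ ≤ β τ * w τ * d) →
      ∀ t, a ≤ t → (w t)⁻¹ * ‖∫ τ in a..t, G τ‖ ≤ d / 2 := by
    intro G d hG hd h t ht
    have h1 : ‖∫ τ in a..t, G τ‖ ≤ ∫ τ in a..t, β τ * w τ * d := by
      refine (intervalIntegral.norm_integral_le_integral_norm ht).trans ?_
      exact intervalIntegral.integral_mono_on ht (hG.norm.intervalIntegrable _ _)
        (((hβc.mul hwc).mul continuous_const).intervalIntegrable _ _) fun τ hτ => h τ hτ.1
    rw [intervalIntegral.integral_mul_const, hint] at h1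
    have h2 := hwpos t
    rw [inv_mul_le_iff₀ h2]
    nlinarith
  have hΦb : ∀ (u : ℝ →ᵇ E) t, ‖(w (max t a))⁻¹ • (x0 + ∫ τ in a..max t a, I u τ)‖ ≤
      ‖x0‖ + (1 + ‖u‖) / 2 := by
    intro u t
    have ht : a ≤ max t a := le_max_right _ _
    have h1 := key (I u) (1 + ‖u‖) (hIc u) (by positivity) (fun τ hτ => by
      have h2 := hw1 τ hτ
      have h3 : ‖B τ (w τ • u τ)‖ ≤ ‖B τ‖ * (w τ * ‖u‖) := by
        refine ((B τ).le_opNorm _).trans ?_
        rw [norm_smul, Real.norm_of_nonneg (hwpos τ).le]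
        gcongr
        exact u.norm_coe_le_norm τ
      have h4 := norm_sub_le (F τ) (B τ (w τ • u τ))
      have h5 := norm_nonneg (F τ)
      have h6 := norm_nonneg (B τ)
      have h7 := norm_nonneg u
      simp only [hI, hβ]
      nlinarith [mul_nonneg h5 h7, mul_nonneg (mul_nonneg h5 h7) (hwpos τ).le,
        mul_nonneg h6 (hwpos τ).le, mul_nonneg h5 (sub_nonneg.2 h2)]) _ ht
    have h2 := hw1 _ ht
    have h3 : (w (max t a))⁻¹ ≤ 1 := inv_le_one_of_one_le₀ h2
    have h4 : 0 ≤ (w (max t a))⁻¹ := by positivity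
    rw [norm_smul, Real.norm_of_nonneg h4]
    calc _ ≤ (w (max t a))⁻¹ * (‖x0‖ + ‖∫ τ in a..max t a, I u τ‖) := by
          gcongr; exact norm_add_le _ _
      _ ≤ _ := by
          rw [mul_add]
          have := mul_le_mul_of_nonneg_right h3 (norm_nonneg x0)
          linarith
  set Φ : (ℝ →ᵇ E) → (ℝ →ᵇ E) := fun u =>
    BoundedContinuousFunction.ofNormedAddCommGroup _ (hΦc u) _ (hΦb u) with hΦ
  have hΦa : ∀ u t, Φ u t = (w (max t a))⁻¹ • (x0 + ∫ τ in a..max t a, I u τ) := fun u t => rfl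
  have hcon : ContractingWith (1 / 2) Φ := by
    refine ⟨by norm_num, LipschitzWith.of_dist_le_mul fun u v => ?_⟩
    rw [BoundedContinuousFunction.dist_le (by positivity)]
    intro t
    have ht : a ≤ max t a := le_max_right _ _
    rw [dist_eq_norm, hΦa, hΦa, ← smul_sub, add_sub_add_left_eq_sub,
      ← integral_sub ((hIc u).intervalIntegrable _ _) ((hIc v).intervalIntegrable _ _),
      norm_smul, Real.norm_of_nonneg (inv_nonneg.2 (hwpos _).le)]
    have := key (fun τ => I u τ - I v τ) (dist u v) ((hIc u).sub (hIc v)) dist_nonneg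
      (fun τ hτ => by
        have h1 : I u τ - I v τ = B τ (w τ • (v τ - u τ)) := by
          simp only [hI, smul_sub, map_sub]; abel
        rw [h1]
        refine ((B τ).le_opNorm _).trans ?_
        rw [norm_smul, Real.norm_of_nonneg (hwpos τ).le, ← dist_eq_norm, dist_comm]
        have h2 := BoundedContinuousFunction.dist_coe_le_dist (f := u) (g := v) τ
        have h3 : ‖B τ‖ ≤ β τ := le_add_of_nonneg_right (norm_nonneg _)
        have h4 := (hwpos τ).le
        calc _ ≤ β τ * (w τ * dist u v) := by gcongr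
          _ = _ := by ring) _ ht
    simp only [NNReal.coe_div, NNReal.coe_one, NNReal.coe_ofNat]
    linarith
  set u := hcon.fixedPoint Φ with hu
  have hfix : Φ u = u := hcon.fixedPoint_isFixedPt
  have hJ : Continuous fun τ => I u (max τ a) := (hIc u).comp hmax
  set γ : ℝ → E := fun t => x0 + ∫ τ in a..t, I u (max τ a) with hγ
  have hγw : ∀ t, a ≤ t → γ t = w t • u t := by
    intro t ht
    have h1 : u t = (w t)⁻¹ • (x0 + ∫ τ in a..t, I u τ) := by
      rw [← hfix, hΦa, hfix, max_eq_left ht]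
    rw [h1, smul_smul, mul_inv_cancel₀ (hwpos t).ne', one_smul]
    simp only [hγ]
    congr 1
    apply integral_congr
    intro τ hτ
    rw [uIcc_of_le ht] at hτ
    simp only [max_eq_left hτ.1]
  have hγa : γ a = x0 := by simp [hγ]
  refine ⟨γ, hγa, fun t ht => ?_, fun t => ?_⟩
  · have h1 : ∫ τ in a..t, I u (max τ a) = ∫ τ in a..t, (F a - B a x0) := by
      apply integral_congr
      intro τ hτ
      rw [uIcc_of_ge ht] at hτ
      simp only [max_eq_right hτ.2, hI, ← hγw a le_rfl, hγa]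
    simp only [hγ, h1, intervalIntegral.integral_const]
  rw [hγw _ (le_max_right _ _)]
  exact ((hJ.integral_hasStrictDerivAt a t).hasDerivAt).const_add x0

end ODE

section Gronwall

variable {H : Type*} [NormedAddCommGroup H] [InnerProductSpace ℝ H]

theorem energy_gronwall {h h' : ℝ → H} {a b C r : ℝ} (hC : 0 ≤ C)
    (hd : ∀ t ∈ Icc a b, HasDerivAt h (h' t) t)
    (hb : ∀ t ∈ Icc a b, inner ℝ (h' t) (h t) ≤ C * ‖h t‖ ^ 2 + r * ‖h t‖) :
    ∀ t ∈ Icc a b, ‖h t‖ ^ 2 ≤ (‖h a‖ ^ 2 + r ^ 2) * Real.exp ((2 * C + 1) * (b - a)) := by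
  intro t ht
  have h1 : ∀ t ∈ Icc a b, HasDerivAt (fun t => ‖h t‖ ^ 2) (2 * inner ℝ (h t) (h' t)) t :=
    fun t ht => (hd t ht).norm_sq
  have h2 := le_gronwallBound_of_liminf_deriv_right_le (f := fun t => ‖h t‖ ^ 2)
    (f' := fun t => 2 * inner ℝ (h t) (h' t)) (δ := ‖h a‖ ^ 2) (K := 2 * C + 1) (ε := r ^ 2)
    (a := a) (b := b) (fun t ht => (h1 t ht).continuousAt.continuousWithinAt)
    (fun x hx r hr => ((h1 x (Ico_subset_Icc_self hx)).hasDerivWithinAt (s := Ici x)
      |>.liminf_right_slope_le hr).mono fun z hz => by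
        simpa [slope_def_field, div_eq_inv_mul] using hz) le_rfl
    (fun x hx => by
      have := hb x (Ico_subset_Icc_self hx)
      rw [real_inner_comm] at this
      nlinarith [sq_nonneg (r - ‖h x‖)]) t ht
  have hK : (2 * C + 1) ≠ 0 := by positivity
  rw [gronwallBound_of_K_ne_0 hK] at h2
  have h3 : Real.exp ((2 * C + 1) * (t - a)) ≤ Real.exp ((2 * C + 1) * (b - a)) := by
    gcongr; exact ht.2
  have h4 : r ^ 2 / (2 * C + 1) ≤ r ^ 2 := div_le_self (sq_nonneg r) (by linarith)
  have h5 : 0 ≤ r ^ 2 / (2 * C + 1) := by positivity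
  have h6 := Real.exp_pos ((2 * C + 1) * (t - a))
  calc ‖h t‖ ^ 2 ≤ ‖h a‖ ^ 2 * Real.exp ((2 * C + 1) * (t - a)) +
        r ^ 2 / (2 * C + 1) * (Real.exp ((2 * C + 1) * (t - a)) - 1) := h2
    _ ≤ ‖h a‖ ^ 2 * Real.exp ((2 * C + 1) * (t - a)) +
        r ^ 2 * Real.exp ((2 * C + 1) * (t - a)) := by nlinarith
    _ = (‖h a‖ ^ 2 + r ^ 2) * Real.exp ((2 * C + 1) * (t - a)) := by ring
    _ ≤ _ := by gcongr

end Gronwall

end Pool.Agent.MP_187b32_an.Solver
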