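import Pool.Agent.MP_187b32_an.Solver.Stmt
import Pool.Agent.MP_187b32_an.Spec.Energy

/-!
Classes of operators in the velocity variable that are stable under commutators with the creation
operators: polynomial multipliers, finite rank operators, collision operators.
-/

set_option autoImplicit false

open MeasureTheory Finset Pool.Agent.Boltz

noncomputable section

namespace Pool.Agent.MP_187b32_an.Solver

/-- Commutator with a creation operator. -/
def adV (j : Fin 3) (B : SV →L[ℝ] SV) : SV →L[ℝ] SV := (ap j).comp B - B.comp (ap j)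

lemma adV_apply (j : Fin 3) (B : SV →L[ℝ] SV) (f : SV) :
    adV j B f = ap j (B f) - B (ap j f) := rfl

lemma adV_add (j : Fin 3) (A B : SV →L[ℝ] SV) : adV j (A + B) = adV j A + adV j B := by
  ext1 f; simp only [adV_apply, add_apply, map_add]; abel

lemma adV_smul (j : Fin 3) (c : ℝ) (A : SV →L[ℝ] SV) : adV j (c • A) = c • adV j A := by
  ext1 f; simp only [adV_apply, smul_apply, map_smul, smul_sub]

/-- Form bound with a small constant on the dissipation of both arguments. -/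
def V0 (d : SV → ℝ) (B : SV →L[ℝ] SV) : Prop :=
  ∀ ε : ℝ, 0 < ε → ∃ C : ℝ, 0 ≤ C ∧ ∀ f h, |ip (B f) h| ≤ ε * (d f + d h) + C * (ip f f + ip h h)

/-- Form bound with a small constant on the dissipation of the second argument. -/
def V1 (d : SV → ℝ) (B : SV →L[ℝ] SV) : Prop :=
  ∀ ε : ℝ, 0 < ε → ∃ C : ℝ, 0 ≤ C ∧ ∀ f h, |ip (B f) h| ≤ ε * d h + C * (d f + ip h h)

/-- Bound of the quadratic form. -/
def VD (d : SV → ℝ) (B : SV →L[ℝ] SV) : Prop :=
  ∀ ε : ℝ, 0 < ε → ∃ C : ℝ, 0 ≤ C ∧ ∀ h, |ip (B h) h| ≤ ε * d h + C * ip h h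

variable {d : SV → ℝ}

lemma V0.add {A B : SV →L[ℝ] SV} (hA : V0 d A) (hB : V0 d B) : V0 d (A + B) := by
  intro ε hε
  obtain ⟨C1, h1, h1'⟩ := hA (ε / 2) (by positivity)
  obtain ⟨C2, h2, h2'⟩ := hB (ε / 2) (by positivity)
  refine ⟨C1 + C2, by positivity, fun f h => ?_⟩
  rw [add_apply, map_add, LinearMap.add_apply]
  refine (abs_add_le _ _).trans ?_
  linarith [h1' f h, h2' f h]

lemma V0.smul {A : SV →L[ℝ] SV} (hA : V0 d A) (hd : ∀ f, 0 ≤ d f) (c : ℝ) : V0 d (c • A) := by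
  intro ε hε
  obtain ⟨C1, h1, h1'⟩ := hA (ε / (|c| + 1)) (by positivity)
  refine ⟨|c| * C1, by positivity, fun f h => ?_⟩
  rw [smul_apply, map_smul, LinearMap.smul_apply, smul_eq_mul, abs_mul]
  have h2 := mul_le_mul_of_nonneg_left (h1' f h) (abs_nonneg c)
  have h3 : |c| * (ε / (|c| + 1)) ≤ ε := by
    rw [mul_div_assoc', div_le_iff₀ (by positivity)]; nlinarith
  have h4 := mul_le_mul_of_nonneg_right h3 (add_nonneg (hd f) (hd h))
  nlinarith

lemma V0.vd {A : SV →L[ℝ] SV} (hA : V0 d A) : VD d A := by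
  intro ε hε
  obtain ⟨C1, h1, h1'⟩ := hA (ε / 2) (by positivity)
  exact ⟨2 * C1, by positivity, fun h => by linarith [h1' h h]⟩

/-! ### Polynomial multipliers -/

/-- Multiplication by a polynomial of degree at most `n`. -/
inductive MulC (n : ℕ) : (SV →L[ℝ] SV) → Prop
  | base (α : List (Fin 3)) (h : α.length ≤ n) : MulC n (mulW α)
  | add {A B : SV →L[ℝ] SV} : MulC n A → MulC n B → MulC n (A + B)
  | smul {A : SV →L[ℝ] SV} (c : ℝ) : MulC n A → MulC n (c • A)

lemma MulC.mono {n m : ℕ} {A : SV →L[ℝ] SV} (h : MulC n A) (hnm : n ≤ m) : MulC m A := by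
  induction h with
  | base α hα => exact .base α (hα.trans hnm)
  | add _ _ h1 h2 => exact h1.add h2
  | smul c _ h1 => exact h1.smul c

lemma MulC.comp {n : ℕ} {A : SV →L[ℝ] SV} (h : MulC n A) (i : Fin 3) :
    MulC (n + 1) ((mulV i).comp A) := by
  induction h with
  | base α hα => exact .base (i :: α) (Nat.succ_le_succ hα)
  | add _ _ h1 h2 => rw [ContinuousLinearMap.comp_add]; exact h1.add h2
  | smul c _ h1 => rw [ContinuousLinearMap.comp_smul]; exact h1.smul c

lemma mulC_adV_mulW (j : Fin 3) (α : List (Fin 3)) : MulC α.length (adV j (mulW α)) := by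
  induction α with
  | nil =>
    have e : adV j (mulW []) = (0 : ℝ) • mulW [] := by ext1 f; simp [adV_apply]
    rw [e]; exact (MulC.base [] le_rfl).smul 0
  | cons i α ih =>
    have e : adV j (mulW (i :: α)) = (mulV i).comp (adV j (mulW α)) +
        (-(if j = i then (1 : ℝ) else 0)) • mulW α := by
      ext1 f
      simp only [adV_apply, mulW_cons, ap_mulV, add_apply,
        ContinuousLinearMap.comp_apply, smul_apply, map_sub]
      rw [neg_smul]
      abel
    rw [e]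
    exact (ih.comp i).add ((MulC.base α (Nat.le_succ _)).smul _)

lemma MulC.adV {n : ℕ} {A : SV →L[ℝ] SV} (h : MulC n A) (j : Fin 3) : MulC n (adV j A) := by
  induction h with
  | base α hα => exact (mulC_adV_mulW j α).mono hα
  | add _ _ h1 h2 => rw [adV_add]; exact h1.add h2
  | smul c _ h1 => rw [adV_smul]; exact h1.smul c

lemma mulW_mulV (α : List (Fin 3)) (j : Fin 3) (f : SV) :
    mulW α (mulV j f) = mulV j (mulW α f) := by
  induction α with
  | nil => rfl
  | cons i α ih => rw [mulW_cons, ih, mulV_comm, mulW_cons]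

lemma ip_mulW (α : List (Fin 3)) (f h : SV) : ip (mulW α f) h = ip f (mulW α h) := by
  induction α generalizing h with
  | nil => rfl
  | cons i α ih => rw [mulW_cons, ip_mulV, ih, mulW_mulV, mulW_cons]

lemma abs_mulW_le (α : List (Fin 3)) (f : SV) (v : E) :
    |mulW α f v| ≤ (1 + ‖v‖) ^ α.length * |f v| := by
  induction α with
  | nil => simp
  | cons i α ih =>
    rw [mulW_cons, mulV_apply, abs_mul, List.length_cons, pow_succ', mul_assoc]
    have h1 : |v i| ≤ 1 + ‖v‖ := by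
      have := PiLp.norm_apply_le v i
      rw [Real.norm_eq_abs] at this
      linarith
    gcongr

lemma integrable_wgt (p : ℕ) (f : SV) : Integrable fun v => (1 + ‖v‖) ^ p * f v ^ 2 := by
  obtain ⟨C, -, hC⟩ := weighted_le_nA p
  refine Integrable.mono' (f.integrable.norm.const_mul (C * √(nA (p + 3) f))) ?_
    (Filter.Eventually.of_forall fun v => ?_)
  · exact (((continuous_const.add continuous_norm).pow p).mul
      (f.continuous.pow 2)).aestronglyMeasurable
  · rw [Real.norm_of_nonneg (by positivity), Real.norm_eq_abs, ← sq_abs, pow_two, ← mul_assoc]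
    exact mul_le_mul_of_nonneg_right (hC f v).1 (abs_nonneg _)

lemma cube_le {t ε : ℝ} (ht : 1 ≤ t) (hε : 0 < ε) : t ^ 3 ≤ ε * t ^ 8 + ε⁻¹ ^ 3 := by
  have h0 : 0 < t := by linarith
  rcases le_total t ε⁻¹ with h | h
  · have : t ^ 3 ≤ ε⁻¹ ^ 3 := by gcongr
    have : 0 ≤ ε * t ^ 8 := by positivity
    linarith
  · have h1 : 1 ≤ ε * t := by
      rwa [inv_le_iff_one_le_mul₀' hε] at h
    have h2 : t ^ 4 ≤ t ^ 8 := pow_le_pow_right₀ ht (by norm_num)
    have h3 : t ^ 3 * 1 ≤ t ^ 3 * (ε * t) := by gcongr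
    have h4 : 0 ≤ ε⁻¹ ^ 3 := by positivity
    nlinarith

lemma v0_mulW (hd : ∀ f, 0 ≤ d f)
    (hw : ∃ C : ℝ, ∀ f : SV, ∫ v, (1 + ‖v‖) ^ 8 * f v ^ 2 ≤ C * d f)
    (α : List (Fin 3)) (hα : α.length ≤ 3) : V0 d (mulW α) := by
  intro ε hε
  obtain ⟨C, hC⟩ := hw
  set e := ε / (|C| + 1) with he
  have he0 : 0 < e := by positivity
  refine ⟨e⁻¹ ^ 3, by positivity, fun f h => ?_⟩
  have i1 := integrable_wgt 8 f
  have i2 := integrable_wgt 8 h
  have i3 : Integrable fun v => f v ^ 2 := by simpa using integrable_wgt 0 f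
  have i4 : Integrable fun v => h v ^ 2 := by simpa using integrable_wgt 0 h
  have h1 : |ip (mulW α f) h| ≤ ∫ v, (e * ((1 + ‖v‖) ^ 8 * f v ^ 2 + (1 + ‖v‖) ^ 8 * h v ^ 2) +
      e⁻¹ ^ 3 * (f v ^ 2 + h v ^ 2)) := by
    rw [ip_def, ← Real.norm_eq_abs]
    refine norm_integral_le_of_norm_le (((i1.add i2).const_mul _).add ((i3.add i4).const_mul _))
      (Filter.Eventually.of_forall fun v => ?_)
    have ht : 1 ≤ 1 + ‖v‖ := le_add_of_nonneg_right (norm_nonneg v)
    have h2 : |mulW α f v| ≤ (1 + ‖v‖) ^ 3 * |f v| :=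
      (abs_mulW_le α f v).trans (mul_le_mul_of_nonneg_right (pow_le_pow_right₀ ht hα)
        (abs_nonneg _))
    have h3 : |f v| * |h v| ≤ f v ^ 2 + h v ^ 2 := by
      nlinarith [sq_nonneg (|f v| - |h v|), sq_abs (f v), sq_abs (h v),
        mul_nonneg (abs_nonneg (f v)) (abs_nonneg (h v))]
    rw [Real.norm_eq_abs, abs_mul]
    calc |mulW α f v| * |h v| ≤ (1 + ‖v‖) ^ 3 * |f v| * |h v| := by gcongr
      _ = (1 + ‖v‖) ^ 3 * (|f v| * |h v|) := by ring
      _ ≤ (e * (1 + ‖v‖) ^ 8 + e⁻¹ ^ 3) * (f v ^ 2 + h v ^ 2) := by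
          gcongr; exact cube_le ht he0
      _ = _ := by ring
  have i5 : Integrable fun v => (1 + ‖v‖) ^ 8 * f v ^ 2 + (1 + ‖v‖) ^ 8 * h v ^ 2 := i1.add i2
  have i6 : Integrable fun v => f v ^ 2 + h v ^ 2 := i3.add i4
  rw [integral_add (i5.const_mul _) (i6.const_mul _), integral_const_mul,
    integral_const_mul, integral_add i1 i2, integral_add i3 i4, ← ip_self_eq, ← ip_self_eq] at h1
  have h2 : e * |C| ≤ ε := by
    rw [he, div_mul_eq_mul_div, div_le_iff₀ (by positivity)]; nlinarith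
  have h3 := mul_le_mul_of_nonneg_right (le_abs_self C) (hd f)
  have h4 := mul_le_mul_of_nonneg_right (le_abs_self C) (hd h)
  have h5 := mul_le_mul_of_nonneg_right h2 (add_nonneg (hd f) (hd h))
  have h6 := mul_le_mul_of_nonneg_left (add_le_add ((hC f).trans h3) ((hC h).trans h4)) he0.le
  nlinarith

lemma MulC.v0 (hd : ∀ f, 0 ≤ d f)
    (hw : ∃ C : ℝ, ∀ f : SV, ∫ v, (1 + ‖v‖) ^ 8 * f v ^ 2 ≤ C * d f)
    {A : SV →L[ℝ] SV} (h : MulC 3 A) : V0 d A := by
  induction h with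
  | base α hα => exact v0_mulW hd hw α hα
  | add _ _ h1 h2 => exact h1.add h2
  | smul c _ h1 => exact h1.smul hd c

lemma vd_mulW_ap (hd : ∀ f, 0 ≤ d f)
    (hw : ∃ C : ℝ, ∀ f : SV, ∫ v, (1 + ‖v‖) ^ 8 * f v ^ 2 ≤ C * d f)
    (α : List (Fin 3)) (hα : α.length ≤ 2) (j : Fin 3) : VD d ((mulW α).comp (ap j)) := by
  have h1 : MulC 3 ((1 / 2 : ℝ) • mulW (j :: α) + (-1 / 2 : ℝ) • adV j (mulW α)) :=
    ((MulC.base _ (Nat.succ_le_succ hα)).smul _).add
      (((mulC_adV_mulW j α).mono (hα.trans (by norm_num))).smul _)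
  intro ε hε
  obtain ⟨C, hC, h⟩ := (h1.v0 hd hw).vd ε hε
  refine ⟨C, hC, fun f => le_trans (le_of_eq ?_) (h f)⟩
  congr 1
  have h2 : ip (ap j (mulW α f)) f = ip (mulW α (am j f)) f := by
    rw [ip_ap, ip_comm, ip_mulW α (am j f)]
  have h3 : ip (mulV j (mulW α f)) f = ip (mulW α (ap j f)) f + ip (mulW α (am j f)) f := by
    rw [← mulW_mulV, ← ap_add_am, map_add, map_add, LinearMap.add_apply]
  simp only [ContinuousLinearMap.comp_apply, add_apply,
    smul_apply, adV_apply, mulW_cons, map_add, map_smul, map_sub,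
    LinearMap.add_apply, LinearMap.smul_apply, LinearMap.sub_apply, smul_eq_mul, h2, h3]
  ring

/-! ### Finite rank operators -/

/-- Finite rank operators with Schwartz kernel. -/
inductive FR : (SV →L[ℝ] SV) → Prop
  | base (a b : SV) : FR ((ipL a).smulRight b)
  | add {A B : SV →L[ℝ] SV} : FR A → FR B → FR (A + B)
  | smul {A : SV →L[ℝ] SV} (c : ℝ) : FR A → FR (c • A)

lemma FR.adV {A : SV →L[ℝ] SV} (h : FR A) (j : Fin 3) : FR (adV j A) := by
  induction h with
  | base a b =>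
    have e : Solver.adV j ((ipL a).smulRight b) =
        (ipL a).smulRight (ap j b) + (-1 : ℝ) • (ipL (am j a)).smulRight b := by
      ext1 f
      simp [adV_apply, ip_am, sub_eq_add_neg]
    rw [e]; exact (FR.base _ _).add ((FR.base _ _).smul _)
  | add _ _ h1 h2 => rw [adV_add]; exact h1.add h2
  | smul c _ h1 => rw [adV_smul]; exact h1.smul c

lemma FR.v0 (hd : ∀ f, 0 ≤ d f) {A : SV →L[ℝ] SV} (h : FR A) : V0 d A := by
  induction h with
  | base a b =>
    intro ε hε
    refine ⟨√(ip a a) * √(ip b b), by positivity, fun f h => ?_⟩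
    simp only [ContinuousLinearMap.smulRight_apply, ipL_apply, map_smul, LinearMap.smul_apply,
      smul_eq_mul, abs_mul]
    have h1 := mul_le_mul (abs_ip_le a f) (abs_ip_le b h) (abs_nonneg _) (by positivity)
    have h2 : √(ip f f) * √(ip h h) ≤ ip f f + ip h h := by
      nlinarith [sq_nonneg (√(ip f f) - √(ip h h)), Real.sq_sqrt (ip_self_nonneg f),
        Real.sq_sqrt (ip_self_nonneg h),
        mul_nonneg (Real.sqrt_nonneg (ip f f)) (Real.sqrt_nonneg (ip h h))]
    have h3 := mul_le_mul_of_nonneg_left h2 (show 0 ≤ √(ip a a) * √(ip b b) by positivity)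
    have h4 := mul_nonneg hε.le (add_nonneg (hd f) (hd h))
    nlinarith
  | add _ _ h1 h2 => exact h1.add h2
  | smul c _ h1 => exact h1.smul hd c

lemma FR.sum {ι : Type*} (S : Finset ι) {A : ι → SV →L[ℝ] SV} (h : ∀ i, FR (A i)) :
    FR (∑ i ∈ S, A i) := by
  classical
  induction S using Finset.induction_on with
  | empty => simpa using (FR.base 0 0).smul 0
  | insert i S hi ih => rw [sum_insert hi]; exact (h i).add ih

lemma fr_comp_PP (A : SV →L[ℝ] SV) : FR (A.comp PP) := by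
  have e : A.comp PP = ∑ a, (ipL (eH a)).smulRight (A (eH a)) := by
    ext1 f
    simp [PP_apply]
  rw [e]; exact FR.sum _ fun a => FR.base _ _

/-! ### Collision operators -/

lemma CollData.v1 {Γ : SV → SV →L[ℝ] SV} (h : CollData Γ) (φ : SV) :
    V1 (fun f => -ip (Γ sqMS f) f + ip f f) (-Γ φ) := by
  intro ε hε
  obtain ⟨C, hC⟩ := h.tri φ
  refine ⟨C ^ 2 / ε, by positivity, fun f g => ?_⟩
  rw [neg_apply, map_neg, LinearMap.neg_apply, abs_neg]
  refine (hC f g).trans ?_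
  have h1 := add_nonneg (h.dis_nonneg f) (ip_self_nonneg f)
  have h2 := add_nonneg (h.dis_nonneg g) (ip_self_nonneg g)
  have h3 := Real.sq_sqrt h1
  have h4 := Real.sq_sqrt h2
  have h5 := mul_nonneg (show 0 ≤ C ^ 2 / ε by positivity) (ip_self_nonneg g)
  set a := √(-ip (Γ sqMS f) f + ip f f)
  set b := √(-ip (Γ sqMS g) g + ip g g)
  have h6 : C * a * b ≤ ε * b ^ 2 + C ^ 2 / ε * a ^ 2 := by
    have : ε * b ^ 2 + C ^ 2 / ε * a ^ 2 - 2 * (C * a * b) = ε * (b - C * a / ε) ^ 2 := by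
      field_simp; ring
    have h7 : 0 ≤ ε * (b - C * a / ε) ^ 2 := by positivity
    have h8 : 0 ≤ ε * b ^ 2 + C ^ 2 / ε * a ^ 2 := by positivity
    linarith
  rw [h3, h4] at h6
  linarith

lemma CollData.adV {Γ : SV → SV →L[ℝ] SV} (h : CollData Γ) (j : Fin 3) (φ : SV) :
    adV j (-Γ φ) = -Γ (ap j φ) := by
  ext1 f
  simp only [adV_apply, neg_apply, map_neg, h.leib]
  abel

lemma exists_bound_clm (B : SV →L[ℝ] SV) :
    ∃ (m : ℕ) (C : ℝ), 0 ≤ C ∧ ∀ f, ip (B f) (B f) ≤ C * nA m f := by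
  let T : SV →L[ℝ] Lp ℝ 2 (volume : Measure E) := (SchwartzMap.toLpCLM ℝ ℝ 2 volume).comp B
  obtain ⟨m, C, hC, h⟩ := seminorm_le_of_continuous
    ((normSeminorm ℝ (Lp ℝ 2 (volume : Measure E))).comp T.toLinearMap) T.continuous.norm
  refine ⟨m, C ^ 2, by positivity, fun f => ?_⟩
  rw [ip_self_eq_norm_sq, ← Real.sq_sqrt (nA_nonneg m f), ← mul_pow]
  exact pow_le_pow_left₀ (norm_nonneg _) (h f) 2

end Pool.Agent.MP_187b32_an.Solver
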